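import Pool.Agent.H34.IR.Tree
import Pool.Agent.H72.PC.Blk
import Pool.Agent.H72.PC.Adj

/-!
# [H34 IR ASM] IntegerRatios (MP_8923e7_nt): assembly with the block theorem `blkC`

`real_of_bld`: `D` with `(k + 1) ^ D < (13 / 50 - η) (k + 2) ^ D / r` (e.g. `η = 1 / 100`), `n = (k + 2) ^ D`, `s` from
`blkC n`, `K = n * s`. From `Bld` with `F = L * (n * s) !` take `V`, and the blocks `H w = {F (y - b) : y ∈ V w}` as natural
numbers, `b` a lower bound of all points (`disj_of_sep`: disjoint). All elements of `H` are divisible by `L` and by all primes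
`≤ n s`, so `b = 1` works for these primes `p`; `free_class` (H72/PC/Adj) for `p > n s`. `blkC` with modulus `L`, class `s`,
`D ≥` all elements of `H`: for every `N0` some `N > N0` hits at least `(13 / 50 - η) n` blocks (the mean of the number of
hit blocks). Every hit block has a prime of some colour: a colour `i` with at least `(13 / 50 - η) n / r > (k + 1) ^ D`
blocks: `full_of_card`, `node_of_full` with `S = {y | N + F (y - b) is a prime of colour i}` and `P = NP (¬ Good) F` (`hP`: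
`u j.succ.succ = u 0 + t (u 1 - u 0)` is never strictly between `u 0` and `u 1`). This gives `u`, and
`N' = N + F (u 0 - b)` is in `{N | Rea χ L s₀ K i m t N}`, `m = F (u 1 - u 0)`: the primes in the window `[N, N + D]` are
`N + h` with `h` in the union of `H` (at most `n s` of them), and `N + h ≡ s (mod L)`. `u`, `i` can be chosen the same for
infinitely many `N` (finitely many possibilities), which contradicts `¬ Good m t`.
-/

namespace Pool.Agent.H34.IR

open Finset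

/-- the depth of the tree -/
private theorem asm_D (k r : ℕ) : ∃ D : ℕ, 4 * r * (k + 1) ^ D < (k + 2) ^ D := by
  refine ⟨4 * r * (k + 1), ?_⟩
  obtain ⟨E, hE⟩ : ∃ E, E = 4 * r * (k + 1) := ⟨_, rfl⟩
  rw [← hE]
  have hk : (0 : ℝ) < (k : ℝ) + 1 := by positivity
  have h := one_add_mul_le_pow (a := (1 : ℝ) / (k + 1)) (by have : (0 : ℝ) ≤ 1 / ((k : ℝ) + 1) := by positivity
                                                            linarith) E
  have h1 : (1 : ℝ) + (E : ℝ) * (1 / (k + 1)) = 1 + 4 * r := by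
    rw [hE]
    push_cast
    field_simp
  rw [h1] at h
  have h2 := mul_le_mul_of_nonneg_right h (pow_nonneg hk.le E)
  rw [← mul_pow] at h2
  have h3 : ((1 : ℝ) + 1 / (k + 1)) * (k + 1) = k + 2 := by
    field_simp
    ring
  rw [h3] at h2
  have h4 : (0 : ℝ) < ((k : ℝ) + 1) ^ E := pow_pos hk E
  have h5 : (4 * r * ((k : ℝ) + 1) ^ E : ℝ) < ((k : ℝ) + 2) ^ E := by linarith
  exact_mod_cast h5

/-- some `N` hits a quarter of the blocks -/
private theorem asm_hit {n : ℕ} (T : Finset ℕ) (μ : ℕ → ℝ) (hμ : ∀ N, 0 ≤ μ N)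
    (h1 : ∑ N ∈ T, μ N = 1) (hit : Fin n → ℕ → Prop) [∀ j, DecidablePred (hit j)]
    [∀ N, DecidablePred fun j => hit j N] (h : ∀ j, (1 / 4 : ℝ) ≤ ∑ N ∈ T.filter (hit j), μ N) :
    ∃ N ∈ T, n ≤ 4 * (univ.filter fun j => hit j N).card := by
  by_contra hno
  push Not at hno
  have h2 : ∑ j : Fin n, ∑ N ∈ T.filter (hit j), μ N ≤ ((n : ℝ) - 1) / 4 := by
    calc ∑ j : Fin n, ∑ N ∈ T.filter (hit j), μ N
        = ∑ N ∈ T, μ N * ((univ.filter fun j => hit j N).card : ℝ) := by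
          simp_rw [Finset.sum_filter]
          rw [Finset.sum_comm]
          refine Finset.sum_congr rfl fun N _ => ?_
          rw [Finset.card_filter]
          push_cast
          rw [Finset.mul_sum]
          refine Finset.sum_congr rfl fun j _ => ?_
          split_ifs <;> simp
      _ ≤ ∑ N ∈ T, μ N * (((n : ℝ) - 1) / 4) := by
          refine Finset.sum_le_sum fun N hN => mul_le_mul_of_nonneg_left ?_ (hμ N)
          have h3 : (4 * ((univ.filter fun j => hit j N).card : ℝ)) + 1 ≤ n := by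
            exact_mod_cast hno N hN
          linarith
      _ = ((n : ℝ) - 1) / 4 := by rw [← Finset.sum_mul, h1, one_mul]
  have h4 : ∑ _j : Fin n, (1 / 4 : ℝ) ≤ ∑ j : Fin n, ∑ N ∈ T.filter (hit j), μ N :=
    Finset.sum_le_sum fun j _ => h j
  rw [Finset.sum_const, Finset.card_univ, Fintype.card_fin, nsmul_eq_mul] at h4
  linarith

/-- one `N` which hits a quarter of the blocks gives a realised node tuple -/
private theorem asm_node {k r : ℕ} (χ : ℕ → Fin r) (L s₀ D s K : ℕ) (F : ℤ) (hF : 1 ≤ F)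
    (hLF : (L : ℤ) ∣ F) (hK : (k + 2) ^ D * s ≤ K) (hr : 4 * r * (k + 1) ^ D < (k + 2) ^ D)
    (V : (Fin D → Fin (k + 2)) → Finset ℤ) (hcard : ∀ w, (V w).card = s)
    (B : ℤ → (Fin k → ℤ) → Prop) (hN : Nodes (NP B F) D V) (hS : Sep D V) (b : ℤ)
    (hb : ∀ w, ∀ y ∈ V w, b ≤ y) (W : ℕ) (hW : ∀ w, ∀ y ∈ V w, F * (y - b) ≤ W) (N : ℕ)
    (hNc : N ≡ s₀ [MOD L])
    (hex : ∀ g : ℕ, g ≤ W → (N + g).Prime → ∃ w, ∃ y ∈ V w, (g : ℤ) = F * (y - b))
    (J : Finset (Fin D → Fin (k + 2))) (hJ : (k + 2) ^ D ≤ 4 * J.card)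
    (hJ' : ∀ w ∈ J, ∃ y ∈ V w, ((N : ℤ) + F * (y - b)).toNat.Prime) :
    ∃ u : Fin (k + 2) → ℤ, (∀ i, ∃ w, u i ∈ V w) ∧ NP B F u ∧ ∃ (i : Fin r) (N' : ℕ), N ≤ N' ∧
      ∀ t : Fin k → ℤ, (∀ j : Fin k, u j.succ.succ = u 0 + t j * (u 1 - u 0)) →
        Rea χ L s₀ K i (F * (u 1 - u 0)).toNat t N' := by
  classical
  choose! y hy hyp using hJ'
  -- the colour
  obtain ⟨i, -, hi⟩ := Finset.exists_lt_card_fiber_of_mul_lt_card_of_maps_to (s := J)
    (t := (univ : Finset (Fin r))) (f := fun w => χ ((N : ℤ) + F * (y w - b)).toNat) (n := (k + 1) ^ D)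
    (fun _ _ => mem_univ _) (by
      rw [Finset.card_univ, Fintype.card_fin]
      nlinarith)
  -- the congruence
  have hcg : ∀ z : ℤ, (N : ℤ) + F * z ≡ s₀ [ZMOD L] := by
    intro z
    have h1 : (N : ℤ) ≡ s₀ [ZMOD L] := (Int.natCast_modEq_iff).2 hNc
    have h2 : F * z ≡ 0 [ZMOD L] := (Int.modEq_zero_iff_dvd).2 (hLF.mul_right z)
    simpa using h1.add h2
  have hnn : ∀ w, ∀ z ∈ V w, 0 ≤ F * (z - b) := fun w z hz =>
    mul_nonneg (by omega) (by have := hb w z hz; omega)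
  obtain ⟨S, hSd⟩ : ∃ S : Set ℤ, S = {z | Pri χ L s₀ i ((N : ℤ) + F * (z - b))} := ⟨_, rfl⟩
  have hFull : Full D {w : Fin D → Fin (k + 2) | ∃ z ∈ V w, z ∈ S} := by
    have h1 : (k + 1) ^ D < (univ.filter fun w : Fin D → Fin (k + 2) => ∃ z ∈ V w, z ∈ S).card := by
      refine lt_of_lt_of_le hi (card_le_card fun w hw => ?_)
      rw [mem_filter] at hw ⊢
      refine ⟨mem_univ _, y w, hy w hw.1, ?_⟩
      rw [hSd]
      exact ⟨by have := hnn w (y w) (hy w hw.1); omega, hyp w hw.1, hw.2, hcg _⟩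
    have h2 := full_of_card D _ h1
    rw [Finset.coe_filter] at h2
    simpa using h2
  obtain ⟨u, hu1, hu2, hu3⟩ := node_of_full (NP B F) (by
    rintro u ⟨hlt, t, ht, -⟩ i ⟨h1, h2⟩
    refine Fin.cases (fun h1 h2 => ?_) (fun i => ?_) i h1 h2
    · omega
    · refine Fin.cases (fun h1 h2 => ?_) (fun j h1 h2 => ?_) i
      · have h3 : (Fin.succ 0 : Fin (k + 2)) = 1 := rfl
        rw [h3] at h2
        omega
      · rw [ht j] at h1 h2
        have h3 : 0 < t j := by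
          by_contra h4
          push Not at h4
          nlinarith
        have h4 : t j < 1 := by
          by_contra h5
          push Not at h5
          nlinarith
        omega) (fun u h => h.1) D V hN hS S hFull
  obtain ⟨N', hN'⟩ : ∃ N' : ℕ, (N' : ℤ) = (N : ℤ) + F * (u 0 - b) := by
    obtain ⟨w, hw⟩ := (hu1 0).2
    have := hnn w _ hw
    exact ⟨((N : ℤ) + F * (u 0 - b)).toNat, by omega⟩
  have hlt : u 0 < u 1 := hu2.1
  have hm : (((F * (u 1 - u 0)).toNat : ℕ) : ℤ) = F * (u 1 - u 0) := by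
    have : 0 ≤ F * (u 1 - u 0) := mul_nonneg (by omega) (by omega)
    omega
  have hend : (N' : ℤ) + F * (u 1 - u 0) = (N : ℤ) + F * (u 1 - b) := by
    rw [hN']
    ring
  refine ⟨u, fun i => (hu1 i).2, hu2, i, N', ?_, ?_⟩
  · obtain ⟨w, hw⟩ := (hu1 0).2
    have := hnn w _ hw
    omega
  intro t ht
  have hS' : ∀ z, z ∈ S ↔ Pri χ L s₀ i ((N : ℤ) + F * (z - b)) := fun z => by
    rw [hSd]
    rfl
  have hj : ∀ j, (N' : ℤ) + t j * (F * (u 1 - u 0)) = (N : ℤ) + F * (u j.succ.succ - b) := by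
    intro j
    rw [hN', ht j]
    ring
  refine ⟨?_, ?_, ?_, ?_⟩
  · rw [hN']
    exact (hS' _).1 (hu1 0).1
  · rw [hm, hend]
    exact (hS' _).1 (hu1 1).1
  · intro q hq hqc hq1
    by_contra hq2
    push Not at hq2
    have hq3 : (q : ℤ) < (N' : ℤ) + F * (u 1 - u 0) := by
      rw [← hm]
      exact_mod_cast hq2
    rw [hend] at hq3
    have hq4 : (N : ℤ) + F * (u 0 - b) < q := by
      rw [← hN']
      exact_mod_cast hq1
    obtain ⟨w0, hw0⟩ := (hu1 0).2
    obtain ⟨w1, hw1⟩ := (hu1 1).2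
    have h0 := hnn w0 _ hw0
    have h1 := hW w1 _ hw1
    obtain ⟨w, z, hz, hgz⟩ := hex (q - N) (by omega) (by
      have h2 : N + (q - N) = q := by omega
      rw [h2]
      exact hq)
    have h2 : (q : ℤ) = (N : ℤ) + F * (z - b) := by
      rw [← hgz]
      omega
    have h3 : u 0 < z := by
      by_contra h4
      push Not at h4
      have h5 : F * (z - b) ≤ F * (u 0 - b) := mul_le_mul_of_nonneg_left (by omega) (by omega)
      omega
    have h4 : z < u 1 := by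
      by_contra h5
      push Not at h5
      have h6 : F * (u 1 - b) ≤ F * (z - b) := mul_le_mul_of_nonneg_left (by omega) (by omega)
      omega
    refine hu3 w z hz h3 h4 ((hS' z).2 ?_)
    have h5 := hcg (z - b)
    rw [← h2] at h5 ⊢
    exact ⟨by omega, by rw [Int.toNat_natCast]; exact hq, by rw [Int.toNat_natCast]; exact hqc, h5⟩
  · intro j
    rw [hm, hj j]
    refine ⟨(hS' _).1 (hu1 _).1, ?_⟩
    have h1 : (univ.biUnion fun w : Fin D → Fin (k + 2) =>
        (V w).image fun z => (N : ℤ) + F * (z - b)).card ≤ K := by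
      refine (card_biUnion_le).trans ((Finset.sum_le_sum fun w _ => card_image_le).trans ?_)
      rw [Finset.sum_congr rfl fun w _ => hcard w, Finset.sum_const, Finset.card_univ, Fintype.card_fun,
        Fintype.card_fin, Fintype.card_fin, smul_eq_mul]
      exact hK
    refine le_trans (card_le_card fun p hp => ?_) h1
    rw [mem_filter, mem_uIcc] at hp
    obtain ⟨hp1, hp2⟩ := hp
    obtain ⟨w0, hw0⟩ := (hu1 0).2
    obtain ⟨w1, hw1⟩ := (hu1 j.succ.succ).2
    have a0 := hnn w0 _ hw0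
    have a1 := hnn w1 _ hw1
    have b0 := hW w0 _ hw0
    have b1 := hW w1 _ hw1
    rw [hN'] at hp1
    have hlo : (N : ℤ) ≤ p := le_trans (le_min (by omega) (by omega)) hp1.1
    have hhi : p ≤ (N : ℤ) + W := le_trans hp1.2 (max_le (by omega) (by omega))
    obtain ⟨w, z, hz, hgz⟩ := hex (p.toNat - N) (by omega) (by
      have h2 : N + (p.toNat - N) = p.toNat := by omega
      rw [h2]
      exact hp2)
    rw [mem_biUnion]
    refine ⟨w, mem_univ _, mem_image.2 ⟨z, hz, ?_⟩⟩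
    rw [← hgz]
    omega

/-- `Lrg` is not needed here: a tree of blocks all whose node tuples are not realised is impossible -/
theorem not_bld (k r : ℕ) (hr : 1 ≤ r) : ∃ s D K : ℕ, 1 ≤ s ∧ ∀ (χ : ℕ → Fin r) (L s₀ : ℕ), 0 < L → Nat.Coprime s₀ L →
    ¬ Bld (k := k) (fun M t => ¬ Good χ L s₀ K M t) s D := by
  classical
  obtain ⟨D, hD⟩ := asm_D k r
  obtain ⟨s, hs, H⟩ := Pool.Agent.H72.PC.blkC ((k + 2) ^ D) (Nat.one_le_pow _ _ (by omega)) (1 / 100)
    (by norm_num)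
  refine ⟨s, D, (k + 2) ^ D * s, hs, ?_⟩
  intro χ L s₀ hL hcop hB
  obtain ⟨F, hFd⟩ : ∃ F : ℤ, F = ((L * Nat.factorial ((k + 2) ^ D * s) : ℕ) : ℤ) := ⟨_, rfl⟩
  have hF1 : 1 ≤ F := by
    rw [hFd]
    exact_mod_cast Nat.mul_pos hL (Nat.factorial_pos _)
  have hLF : (L : ℤ) ∣ F := by
    rw [hFd]
    exact_mod_cast Dvd.intro _ rfl
  obtain ⟨V, hcard, hN, hS⟩ := hB F hF1
  obtain ⟨b, hb⟩ : ∃ b : ℤ, ∀ w, ∀ y ∈ V w, b ≤ y := by
    obtain ⟨b, hb⟩ := (univ.biUnion V).bddBelow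
    exact ⟨b, fun w y hy => hb (mem_coe.2 (mem_biUnion.2 ⟨w, mem_univ _, hy⟩))⟩
  have hψ : ∀ w, ∀ y ∈ V w, (((F * (y - b)).toNat : ℕ) : ℤ) = F * (y - b) := by
    intro w y hy
    have : 0 ≤ F * (y - b) := mul_nonneg (by omega) (by have := hb w y hy; omega)
    omega
  obtain ⟨e⟩ : Nonempty (Fin ((k + 2) ^ D) ≃ (Fin D → Fin (k + 2))) :=
    ⟨(Fintype.equivFinOfCardEq (by simp)).symm⟩
  obtain ⟨G, hG⟩ : ∃ G : Fin ((k + 2) ^ D) → Finset ℕ,
      ∀ j, G j = (V (e j)).image fun y => (F * (y - b)).toNat := ⟨_, fun _ => rfl⟩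
  have hGm : ∀ j g, g ∈ G j ↔ ∃ y ∈ V (e j), (g : ℤ) = F * (y - b) := by
    intro j g
    rw [hG, mem_image]
    constructor
    · rintro ⟨y, hy, rfl⟩
      exact ⟨y, hy, hψ _ y hy⟩
    · rintro ⟨y, hy, h⟩
      refine ⟨y, hy, ?_⟩
      have := hψ _ y hy
      omega
  have hinj : ∀ y z : ℤ, F * (y - b) = F * (z - b) → y = z := by
    intro y z h
    have := mul_left_cancel₀ (show F ≠ 0 by omega) h
    omega
  have hGc : ∀ j, (G j).card = s := by
    intro j
    rw [hG, card_image_of_injOn, hcard]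
    intro y hy z hz h
    refine hinj y z ?_
    rw [← hψ _ y hy, ← hψ _ z hz]
    exact congrArg _ h
  have hGd : ∀ j j', j ≠ j' → Disjoint (G j) (G j') := by
    intro j j' hjj
    rw [Finset.disjoint_left]
    intro g hg hg'
    rw [hGm] at hg hg'
    obtain ⟨y, hy, h⟩ := hg
    obtain ⟨z, hz, h'⟩ := hg'
    have h1 : y = z := hinj y z (h ▸ h')
    subst h1
    exact Finset.disjoint_left.1 (disj_of_sep D V hS (e j) (e j') (fun h => hjj (e.injective h))) hy hz
  have hFg : ∀ j, ∀ g ∈ G j, L * Nat.factorial ((k + 2) ^ D * s) ∣ g := by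
    intro j g hg
    obtain ⟨y, hy, h⟩ := (hGm j g).1 hg
    have h1 : ((L * Nat.factorial ((k + 2) ^ D * s) : ℕ) : ℤ) ∣ (g : ℤ) := by
      rw [h, ← hFd]
      exact Dvd.intro _ rfl
    exact_mod_cast h1
  obtain ⟨W, hWd⟩ : ∃ W : ℕ, ∀ j, ∀ g ∈ G j, g ≤ W :=
    ⟨(univ.biUnion G).sup id, fun j g hg => Finset.le_sup (f := id) (mem_biUnion.2 ⟨j, mem_univ _, hg⟩)⟩
  have hadm : ∀ p : ℕ, p.Prime → ∃ c : ℕ, ∀ j, ∀ y ∈ G j, ¬ p ∣ c + y := by
    intro p hp
    rcases Nat.lt_or_ge ((k + 2) ^ D * s) p with hps | hps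
    · obtain ⟨c, hc⟩ := Pool.Agent.H72.PC.free_class (univ.biUnion G) p (by
        refine lt_of_le_of_lt ((card_biUnion_le).trans ?_) hps
        rw [Finset.sum_congr rfl fun j _ => hGc j, Finset.sum_const, Finset.card_univ, Fintype.card_fin,
          smul_eq_mul])
      exact ⟨c, fun j y hy => hc y (mem_biUnion.2 ⟨j, mem_univ _, hy⟩)⟩
    · refine ⟨1, fun j y hy hd => ?_⟩
      have h1 : p ∣ y := ((Nat.dvd_factorial hp.pos hps).trans (Dvd.intro_left _ rfl)).trans (hFg j y hy)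
      have h2 : p ∣ 1 := (Nat.dvd_add_left h1).1 hd
      exact hp.one_lt.ne' (Nat.dvd_one.1 h2)
  have hcpr : ∀ j, ∀ y ∈ G j, Nat.Coprime (s₀ + y) L := by
    intro j y hy
    obtain ⟨c, hc⟩ := (Dvd.intro _ rfl : L ∣ L * Nat.factorial ((k + 2) ^ D * s)).trans (hFg j y hy)
    rw [hc, Nat.coprime_add_mul_left_left]
    exact hcop
  have key := H G hGd hGc hadm L s₀ hL hcpr W
  -- the node tuples
  obtain ⟨B, hBd⟩ : ∃ B : ℤ → (Fin k → ℤ) → Prop,
      B = fun M t => ¬ Good χ L s₀ ((k + 2) ^ D * s) M t := ⟨_, rfl⟩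
  rw [← hBd] at hN
  have hbound : ∀ u : Fin (k + 2) → ℤ, NP B F u → ∃ β : ℕ, ∀ (i : Fin r) (N' : ℕ),
      (∀ t : Fin k → ℤ, (∀ j : Fin k, u j.succ.succ = u 0 + t j * (u 1 - u 0)) →
        Rea χ L s₀ ((k + 2) ^ D * s) i (F * (u 1 - u 0)).toNat t N') → N' ≤ β := by
    rintro u ⟨hlt, t, ht, hg⟩
    rw [hBd] at hg
    have hpos : 0 < F * (u 1 - u 0) := mul_pos (by omega) (by omega)
    have hfin : ∀ i : Fin r,
        {N : ℕ | Rea χ L s₀ ((k + 2) ^ D * s) i (F * (u 1 - u 0)).toNat t N}.Finite := by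
      intro i
      by_contra hinf
      exact hg ⟨(F * (u 1 - u 0)).toNat, by omega, by omega, i, hinf⟩
    obtain ⟨β, hβ⟩ := (Set.finite_iUnion hfin).bddAbove
    exact ⟨β, fun i N' h => hβ (Set.mem_iUnion.2 ⟨i, h t ht⟩)⟩
  choose! β hβ using hbound
  obtain ⟨T, μ, hT, hex, hμ, hsum, hhit⟩ := key
    (((Fintype.piFinset fun _ : Fin (k + 2) => univ.biUnion V).sup β))
  obtain ⟨N, hNT, hNn⟩ := asm_hit T μ hμ hsum (fun j N => ∃ y ∈ G j, (N + y).Prime)
    (fun j => le_trans (by norm_num) (hhit j _))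
  obtain ⟨u, hu1, hu2, i, N', hN', hR⟩ := asm_node χ L s₀ D s ((k + 2) ^ D * s) F hF1 hLF le_rfl hD V hcard B
    hN hS b hb W (fun w y hy => by
      have h1 := hWd (e.symm w) (F * (y - b)).toNat ((hGm _ _).2 ⟨y, by rwa [e.apply_symm_apply], hψ w y hy⟩)
      have h2 := hψ w y hy
      omega) N (hT N hNT).2
    (fun g hg hp => by
      obtain ⟨j, hj⟩ := hex N hNT g hg hp
      obtain ⟨y, hy, h⟩ := (hGm j g).1 hj
      exact ⟨e j, y, hy, h⟩)
    ((univ.filter fun j => ∃ y ∈ G j, (N + y).Prime).map e.toEmbedding) (by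
      rw [card_map]
      exact hNn)
    (fun w hw => by
      rw [mem_map] at hw
      obtain ⟨j, hj, rfl⟩ := hw
      rw [mem_filter] at hj
      obtain ⟨-, g, hg, hp⟩ := hj
      obtain ⟨y, hy, h⟩ := (hGm j g).1 hg
      refine ⟨y, hy, ?_⟩
      rw [← h]
      have h1 : ((N : ℤ) + (g : ℤ)).toNat = N + g := by omega
      rw [h1]
      exact hp)
  have h1 := hβ u hu2 i N' hR
  have h2 : β u ≤ (Fintype.piFinset fun _ : Fin (k + 2) => univ.biUnion V).sup β := by
    refine Finset.le_sup (f := β) ?_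
    rw [Fintype.mem_piFinset]
    intro i
    obtain ⟨w, hw⟩ := hu1 i
    exact mem_biUnion.2 ⟨w, mem_univ _, hw⟩
  have h3 := (hT N hNT).1
  omega

end Pool.Agent.H34.IR
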