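import Mathlib

/-!
# [H34 IR COP] IntegerRatios (MP_8923e7_nt): pairwise coprime differences

`avoid`: induction on `B` for the stronger statement with the modulus `A * B !`: the class of `Λ` modulo `A * B !` has the
property for all primes `≤ B`. Step to `p = B + 1` prime, `p ∤ A` (so `n < p`, and `A * B !` is coprime to `p`): the numbers
`Λ + j * (A * B !)`, `j < p`, run through all classes modulo `p`, and the `x ∈ S` forbid at most `n < p` classes. At the end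
add a multiple of `A * B !` to get `L ≤ Λ`.
`pairs_cop`: `avoid` with `S = {A * A' * h - A * g}` (at most `n` elements) and `B` a bound for all
`|A' * (h - h') - (g - g')|`. A prime `p` dividing `a g h` and `a g' h'`: `p ∤ A` because `a g h = 1 mod A`; `p` divides
`A * (A' * (h - h') - (g - g'))`, so `p` divides the second factor, which is `≠ 0` by `hA'` (if it is `0` then `A' ∣ g - g'`,
so `g = g'` and `h = h'`, `0 < A'`), so `p ≤ B`, and `p ∣ a g h` contradicts `avoid`.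
-/

namespace Pool.Agent.H34.IR

open Finset

private theorem cop_res (p n : ℕ) [Fact p.Prime] (hp : n < p) (S : Finset ℤ) (hS : S.card ≤ n) :
    ∃ r : ZMod p, ∀ x ∈ S, r + (x : ZMod p) ≠ 0 := by
  by_contra hcon
  push Not at hcon
  have h1 : (univ : Finset (ZMod p)) ⊆ S.image fun x : ℤ => -(x : ZMod p) := by
    intro r _
    obtain ⟨x, hx, h2⟩ := hcon r
    exact mem_image.2 ⟨x, hx, (eq_neg_of_add_eq_zero_left h2).symm⟩
  have h2 := card_le_card h1
  rw [card_univ, ZMod.card] at h2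
  have h3 : (S.image fun x : ℤ => -(x : ZMod p)).card ≤ S.card := card_image_le
  omega

private theorem cop_aux (A n : ℕ) (hn : ∀ p : ℕ, p.Prime → p ≤ n → p ∣ A) (S : Finset ℤ)
    (hS : S.card ≤ n) (B : ℕ) : ∃ Λ : ℕ, ∀ Λ' : ℕ, Λ' ≡ Λ [MOD A * B.factorial] →
      Λ' ≡ 1 [MOD A] ∧ ∀ p : ℕ, p.Prime → p ≤ B → ¬ p ∣ A → ∀ x ∈ S, ¬ (p : ℤ) ∣ Λ' + x := by
  induction B with
  | zero =>
    refine ⟨1, fun Λ' h => ⟨h.of_mul_right _, fun p hp hp0 => ?_⟩⟩
    exact absurd hp (by rw [Nat.le_zero.1 hp0]; exact Nat.not_prime_zero)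
  | succ B ih =>
    obtain ⟨Λ, hΛ⟩ := ih
    have hd : A * B.factorial ∣ A * (B + 1).factorial :=
      Nat.mul_dvd_mul_left A (by rw [Nat.factorial_succ]; exact Nat.dvd_mul_left _ _)
    by_cases hB : (B + 1).Prime ∧ ¬ (B + 1) ∣ A
    · obtain ⟨hBp, hBA⟩ := hB
      have := Fact.mk hBp
      have hnB : n < B + 1 := by
        by_contra hcon
        exact hBA (hn _ hBp (by omega))
      obtain ⟨r, hr⟩ := cop_res (B + 1) n hnB S hS
      have hco : Nat.Coprime (A * B.factorial) (B + 1) := by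
        refine Nat.Coprime.symm ((Nat.Prime.coprime_iff_not_dvd hBp).2 fun h => ?_)
        rcases (Nat.Prime.dvd_mul hBp).1 h with h | h
        · exact hBA h
        · exact absurd ((Nat.Prime.dvd_factorial hBp).1 h) (by omega)
      obtain ⟨Λ1, h1, h2⟩ := Nat.chineseRemainder hco Λ r.val
      refine ⟨Λ1, fun Λ' h => ?_⟩
      have h3 := hΛ Λ' ((h.of_dvd hd).trans h1)
      refine ⟨h3.1, fun p hp hpB hpA x hx => ?_⟩
      rcases Nat.lt_or_ge p (B + 1) with h4 | h4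
      · exact h3.2 p hp (by omega) hpA x hx
      · have h5 : p = B + 1 := le_antisymm hpB h4
        subst h5
        intro h6
        refine hr x hx ?_
        have h7 : Λ' ≡ r.val [MOD (B + 1)] := by
          refine (h.of_dvd ?_).trans h2
          rw [Nat.factorial_succ]
          exact Dvd.intro_left (A * B.factorial) (by ring)
        have h8 : ((Λ' : ℕ) : ZMod (B + 1)) = r := by
          rw [(ZMod.natCast_eq_natCast_iff _ _ _).2 h7, ZMod.natCast_zmod_val]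
        have h9 := (ZMod.intCast_zmod_eq_zero_iff_dvd ((Λ' : ℤ) + x) (B + 1)).2 h6
        rw [← h8, ← h9]
        push_cast
        rfl
    · refine ⟨Λ, fun Λ' h => ?_⟩
      have h3 := hΛ Λ' (h.of_dvd hd)
      refine ⟨h3.1, fun p hp hpB hpA x hx => ?_⟩
      rcases Nat.lt_or_ge p (B + 1) with h4 | h4
      · exact h3.2 p hp (by omega) hpA x hx
      · have h5 : p = B + 1 := le_antisymm hpB h4
        subst h5
        exact absurd ⟨hp, hpA⟩ hB

theorem avoid (A n : ℕ) (hA : 0 < A) (hn : ∀ p : ℕ, p.Prime → p ≤ n → p ∣ A) (S : Finset ℤ) (hS : S.card ≤ n)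
    (B L : ℕ) : ∃ Λ : ℕ, L ≤ Λ ∧ Λ ≡ 1 [MOD A] ∧
      ∀ p : ℕ, p.Prime → p ≤ B → ¬ p ∣ A → ∀ x ∈ S, ¬ (p : ℤ) ∣ Λ + x := by
  obtain ⟨Λ, hΛ⟩ := cop_aux A n hn S hS B
  have h1 : Λ + L * (A * B.factorial) ≡ Λ [MOD A * B.factorial] := by
    simp
  have h2 := hΛ _ h1
  refine ⟨Λ + L * (A * B.factorial), ?_, h2.1, h2.2⟩
  have h3 : 1 ≤ A * B.factorial := Nat.mul_pos hA (Nat.factorial_pos B)
  have h4 : L * 1 ≤ L * (A * B.factorial) := Nat.mul_le_mul le_rfl h3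
  omega

theorem pairs_cop (A n : ℕ) (hA : 0 < A) (hn : ∀ p : ℕ, p.Prime → p ≤ n → p ∣ A) (G₀ G₁ : Finset ℤ)
    (hcard : G₀.card * G₁.card ≤ n) (A' : ℤ) (hA' : ∀ g ∈ G₀, ∀ g' ∈ G₀, |g - g'| < A') (L : ℕ) :
    ∃ Λ : ℕ, L ≤ Λ ∧ ∀ g ∈ G₀, ∀ h ∈ G₁, (A : ℤ) ∣ (Λ + A * A' * h - A * g) - 1 ∧
      ∀ g' ∈ G₀, ∀ h' ∈ G₁, (g, h) ≠ (g', h') →
        IsCoprime ((Λ : ℤ) + A * A' * h - A * g) (Λ + A * A' * h' - A * g') := by
  obtain ⟨Q, hQ⟩ : ∃ Q : Finset ((ℤ × ℤ) × (ℤ × ℤ)), Q = (G₀ ×ˢ G₁) ×ˢ (G₀ ×ˢ G₁) := ⟨_, rfl⟩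
  obtain ⟨d, hd⟩ : ∃ d : (ℤ × ℤ) × (ℤ × ℤ) → ℤ,
    ∀ g h g' h', d ((g, h), (g', h')) = A' * (h - h') - (g - g') :=
    ⟨fun q => A' * (q.1.2 - q.2.2) - (q.1.1 - q.2.1), fun _ _ _ _ => rfl⟩
  obtain ⟨Λ, hL, h1, h2⟩ := avoid A n hA hn
    ((G₀ ×ˢ G₁).image fun q => (A : ℤ) * A' * q.2 - A * q.1)
    (card_image_le.trans (by rw [card_product]; exact hcard)) (∑ q ∈ Q, (d q).natAbs) L
  refine ⟨Λ, hL, fun g hg h hh => ?_⟩
  have hone : ∀ g h : ℤ, (A : ℤ) ∣ (Λ + A * A' * h - A * g) - 1 := by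
    intro g h
    have h3 : (A : ℤ) ∣ (Λ : ℤ) - 1 := by
      have h4 := (Nat.modEq_iff_dvd.1 h1.symm)
      simpa using h4
    obtain ⟨t, ht⟩ := h3
    exact ⟨t + A' * h - g, by linear_combination ht⟩
  refine ⟨hone g h, fun g' hg' h' hh' hne => ?_⟩
  have hA0 : 0 < A' := by
    have h3 := hA' g hg g hg
    simpa using h3
  have hD : A' * (h - h') - (g - g') ≠ 0 := by
    intro h3
    have h4 : A' * (h - h') = g - g' := by linarith
    have h5 := hA' g hg g' hg'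
    rw [← h4, abs_mul, abs_of_pos hA0] at h5
    have h6 : |h - h'| < 1 := by
      by_contra hcon
      push Not at hcon
      nlinarith
    have h7 : h - h' = 0 := Int.abs_lt_one_iff.1 h6
    rw [h7, mul_zero] at h4
    exact hne (by rw [sub_eq_zero.1 h7, sub_eq_zero.1 h4.symm])
  rw [Int.isCoprime_iff_gcd_eq_one]
  by_contra hcon
  obtain ⟨p, hp, hp1, hp2⟩ := Nat.Prime.not_coprime_iff_dvd.1 hcon
  have e1 := Int.natCast_dvd.2 hp1
  have e2 := Int.natCast_dvd.2 hp2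
  have hpA : ¬ p ∣ A := by
    intro h3
    have h4 : (p : ℤ) ∣ (Λ + A * A' * h - A * g) - 1 :=
      (Int.natCast_dvd_natCast.2 h3).trans (hone g h)
    have h5 : (p : ℤ) ∣ 1 := by
      have h6 := dvd_sub e1 h4
      rwa [sub_sub_cancel] at h6
    have h6 : p ∣ 1 := by exact_mod_cast h5
    exact hp.one_lt.ne' (Nat.dvd_one.1 h6)
  have hdiv : (p : ℤ) ∣ A * (A' * (h - h') - (g - g')) := by
    have h6 := dvd_sub e1 e2
    have h7 : ((Λ : ℤ) + A * A' * h - A * g) - (Λ + A * A' * h' - A * g') =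
        A * (A' * (h - h') - (g - g')) := by ring
    rwa [h7] at h6
  rcases (Nat.prime_iff_prime_int.1 hp).dvd_or_dvd hdiv with h3 | h3
  · exact hpA (Int.natCast_dvd_natCast.1 h3)
  · have h4 : p ≤ (A' * (h - h') - (g - g')).natAbs :=
      Nat.le_of_dvd (Int.natAbs_pos.2 hD) (Int.natCast_dvd.1 h3)
    have h5 : (d ((g, h), (g', h'))).natAbs ≤ ∑ q ∈ Q, (d q).natAbs := by
      refine single_le_sum (f := fun q => (d q).natAbs) (fun q _ => Nat.zero_le _) ?_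
      rw [hQ]
      exact mem_product.2 ⟨mem_product.2 ⟨hg, hh⟩, mem_product.2 ⟨hg', hh'⟩⟩
    rw [hd] at h5
    refine h2 p hp (h4.trans h5) hpA (A * A' * h - A * g)
      (mem_image.2 ⟨(g, h), mem_product.2 ⟨hg, hh⟩, rfl⟩) ?_
    rwa [add_sub_assoc] at e1

end Pool.Agent.H34.IR
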