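import Mathlib

/-!
# [H34 IR DEF] IntegerRatios (MP_8923e7_nt): definitions

Trees of blocks: `V : (Fin d → Fin κ) → Finset ℤ` gives for every leaf `w` of the complete `κ`-ary tree of depth `d` a
block `V w` of integers. `Nodes P d V`: `P u` for every `u : Fin κ → ℤ` for which there is a node `v` of the tree such that
`u i` is in a block below the child number `i` of `v`. `Sep d V`: the sets below different children of one node are
separated. `Full d R`: some node has all its `κ` children hit by the set `R` of leaves.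
-/

namespace Pool.Agent.H34.IR

open Finset

/-- `P u` for all node tuples `u` of the tree of blocks `V` -/
def Nodes {κ : ℕ} (P : (Fin κ → ℤ) → Prop) : (d : ℕ) → ((Fin d → Fin κ) → Finset ℤ) → Prop
  | 0, _ => True
  | d + 1, V => (∀ u : Fin κ → ℤ, (∀ i, ∃ w : Fin d → Fin κ, u i ∈ V (Fin.cons i w)) → P u) ∧
      ∀ i, Nodes P d fun w => V (Fin.cons i w)

/-- the sets below different children of a node are separated -/
def Sep {κ : ℕ} : (d : ℕ) → ((Fin d → Fin κ) → Finset ℤ) → Prop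
  | 0, _ => True
  | d + 1, V => (∀ i j, i ≠ j →
        (∀ v w : Fin d → Fin κ, ∀ x ∈ V (Fin.cons i v), ∀ y ∈ V (Fin.cons j w), x < y) ∨
        ∀ v w : Fin d → Fin κ, ∀ x ∈ V (Fin.cons i v), ∀ y ∈ V (Fin.cons j w), y < x) ∧
      ∀ i, Sep d fun w => V (Fin.cons i w)

/-- some node has all its children hit by `R` -/
def Full {κ : ℕ} : (d : ℕ) → Set (Fin d → Fin κ) → Prop
  | 0, _ => False
  | d + 1, R => (∀ i, ∃ w : Fin d → Fin κ, (Fin.cons i w : Fin (d + 1) → Fin κ) ∈ R) ∨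
      ∃ i, Full d {w | (Fin.cons i w : Fin (d + 1) → Fin κ) ∈ R}

/-- `u 0 < u 1` and the other points are `u 0 + t j (u 1 - u 0)` with `B (F (u 1 - u 0)) t` -/
def NP {k : ℕ} (B : ℤ → (Fin k → ℤ) → Prop) (F : ℤ) (u : Fin (k + 2) → ℤ) : Prop :=
  u 0 < u 1 ∧ ∃ t : Fin k → ℤ, (∀ j : Fin k, u j.succ.succ = u 0 + t j * (u 1 - u 0)) ∧
    B (F * (u 1 - u 0)) t

/-- the box of the `t` with `X j < t j ≤ X j + ε |X j|` -/
noncomputable def Box {k : ℕ} (ε : ℝ) (X : Fin k → ℤ) : Finset (Fin k → ℤ) :=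
  Fintype.piFinset fun j => Ioc (X j) (X j + ⌊ε * |(X j : ℝ)|⌋)

/-- for every threshold `M` there are far away boxes and classes modulo `Q` in which almost all `t` satisfy `B M` -/
def Lrg {k : ℕ} (ε : ℝ) (Q : ℕ) (B : ℤ → (Fin k → ℤ) → Prop) : Prop :=
  ∀ (M : ℤ) (X₀ : ℕ) (δ : ℝ), 0 < δ → ∃ X a : Fin k → ℤ, (∀ j, (X₀ : ℤ) ≤ |X j|) ∧
    ∀ S : Finset (Fin k → ℤ), (∀ t ∈ S, t ∈ Box ε X ∧ (∀ j, t j ≡ a j [ZMOD Q]) ∧ ¬ B M t) →
      (S.card : ℝ) ≤ δ * ∏ j, |(X j : ℝ)|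

/-- a tree of depth `d` of blocks of `s` integers with `NP B F` at all its nodes exists -/
def Bld {k : ℕ} (B : ℤ → (Fin k → ℤ) → Prop) (s d : ℕ) : Prop :=
  ∀ F : ℤ, 1 ≤ F → ∃ V : (Fin d → Fin (k + 2)) → Finset ℤ, (∀ w, (V w).card = s) ∧
    Nodes (NP B F) d V ∧ Sep d V

/-- the primes of colour `i` in the class of `s` modulo `L` -/
def Pri {r : ℕ} (χ : ℕ → Fin r) (L s : ℕ) (i : Fin r) (p : ℤ) : Prop :=
  0 ≤ p ∧ p.toNat.Prime ∧ χ p.toNat = i ∧ p ≡ s [ZMOD L]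

open Classical in
/-- `N` and `N + m` are consecutive primes of colour `i`, all the `N + t j m` are primes of colour `i`, all of them are
`≡ s (mod L)`, and there are at most `K` primes between `N` and `N + t j m` -/
def Rea {k r : ℕ} (χ : ℕ → Fin r) (L s K : ℕ) (i : Fin r) (m : ℕ) (t : Fin k → ℤ) (N : ℕ) : Prop :=
  Pri χ L s i N ∧ Pri χ L s i (N + m) ∧
    (∀ q : ℕ, q.Prime → χ q = i → N < q → N + m ≤ q) ∧
    ∀ j, Pri χ L s i (N + t j * m) ∧ ((uIcc (N : ℤ) (N + t j * m)).filter fun p => p.toNat.Prime).card ≤ K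

/-- `t` is realised infinitely often with some `m ≤ M` -/
def Good {k r : ℕ} (χ : ℕ → Fin r) (L s K : ℕ) (M : ℤ) (t : Fin k → ℤ) : Prop :=
  ∃ m : ℕ, 1 ≤ m ∧ (m : ℤ) ≤ M ∧ ∃ i : Fin r, {N : ℕ | Rea χ L s K i m t N}.Infinite

end Pool.Agent.H34.IR
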