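import Pool.Agent.H34.IR.Step
import Pool.Agent.H34.IR.Asm

/-!
# [H34 IR FIN] IntegerRatios (MP_8923e7_nt): the theorem
-/

namespace Pool.Agent.H34.IR

open Finset

theorem good_mono {k r : ℕ} (χ : ℕ → Fin r) (L s K : ℕ) (M M' : ℤ) (t : Fin k → ℤ) (h : M ≤ M')
    (hg : Good χ L s K M t) : Good χ L s K M' t := by
  obtain ⟨m, h1, h2, h3⟩ := hg
  exact ⟨m, h1, h2.trans h, h3⟩

theorem main (k r : ℕ) : ∃ K : ℕ, ∀ (χ : ℕ → Fin r) (L s Q : ℕ) (ε : ℝ), 0 < L → Nat.Coprime s L → 0 < Q →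
    0 < ε → ∃ (M X₀ : ℕ) (c : ℝ), 0 < c ∧ ∀ X a : Fin k → ℤ, (∀ j, (X₀ : ℤ) ≤ |X j|) →
      c * ∏ j, |(X j : ℝ)| ≤ (({t : Fin k → ℤ |
        (∀ j, X j < t j ∧ (t j : ℝ) ≤ X j + ε * |(X j : ℝ)| ∧ t j ≡ a j [ZMOD Q]) ∧
          ∃ m : ℕ, 1 ≤ m ∧ m ≤ M ∧ ∃ i : Fin r, {N : ℕ | Rea χ L s K i m t N}.Infinite}).ncard : ℝ) := by
  classical
  rcases Nat.eq_zero_or_pos r with hr | hr
  · subst hr
    exact ⟨0, fun χ => (χ 0).elim0⟩
  obtain ⟨b, D, K, hb, hnot⟩ := not_bld k r hr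
  refine ⟨K, fun χ L s Q ε hL hs hQ hε => ?_⟩
  by_contra hcon
  push Not at hcon
  obtain ⟨e, he⟩ : ∃ e : ℝ, e = min ε (1 / 2) := ⟨_, rfl⟩
  have he0 : 0 < e := by
    rw [he]
    exact lt_min hε (by norm_num)
  have he1 : e < 1 := by
    rw [he]
    exact lt_of_le_of_lt (min_le_right _ _) (by norm_num)
  have heε : e ≤ ε := by
    rw [he]
    exact min_le_left _ _
  refine hnot χ L s hL hs (bld_all Q hQ e he0 he1 _ ?_ ?_ b D hb)
  · intro M M' t hMM h1 h2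
    exact h1 (good_mono χ L s K M M' t hMM h2)
  · intro M X₀ δ hδ
    obtain ⟨X, a, hX, hlt⟩ := hcon M.toNat X₀ δ hδ
    refine ⟨X, a, hX, fun S hS => le_trans ?_ hlt.le⟩
    rw [← Set.ncard_coe_finset]
    refine Nat.cast_le.2 (Set.ncard_le_ncard ?_ ?_)
    · intro t ht
      obtain ⟨h1, h2, h3⟩ := hS t (Finset.mem_coe.1 ht)
      replace h3 := not_not.1 h3
      unfold Box at h1
      rw [Fintype.mem_piFinset] at h1
      obtain ⟨m, hm1, hm2, i, hi⟩ := h3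
      refine ⟨fun j => ?_, m, hm1, by omega, i, hi⟩
      have h4 := mem_Ioc.1 (h1 j)
      refine ⟨h4.1, ?_, h2 j⟩
      have h5 : (t j : ℝ) ≤ X j + ⌊e * |(X j : ℝ)|⌋ := by exact_mod_cast h4.2
      have h6 : (⌊e * |(X j : ℝ)|⌋ : ℝ) ≤ e * |(X j : ℝ)| := Int.floor_le _
      have h7 : e * |(X j : ℝ)| ≤ ε * |(X j : ℝ)| := mul_le_mul_of_nonneg_right heε (abs_nonneg _)
      linarith
    · refine Set.Finite.subset (Box ε X).finite_toSet ?_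
      intro t ht
      rw [Finset.mem_coe]
      unfold Box
      rw [Fintype.mem_piFinset]
      intro j
      obtain ⟨h1, h2, _⟩ := ht.1 j
      rw [mem_Ioc]
      refine ⟨h1, ?_⟩
      have h3 : ((t j - X j : ℤ) : ℝ) ≤ ε * |(X j : ℝ)| := by
        push_cast
        linarith
      have h4 := Int.le_floor.2 h3
      omega

end Pool.Agent.H34.IR
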