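import Mathlib

/-!
# [H34 IR WIN] IntegerRatios (MP_8923e7_nt): Chinese remainders, windows, union bound

`crt`: `Finset` induction or `Nat.chineseRemainderOfFinset`; the last modulus is `Q`; reduce modulo `(∏ a i) * Q`.
`window`: `J = Ioc ⌊α⌋ ⌊β⌋` with `α = (X a₀ + |X| η a₀ + E) / K` and `β = (X a₀ + |X| a₀ (ε - η) - a₀ - E) / K`:
`X a ≤ X a₀ + |X| η a₀`, `(X + ⌊ε|X|⌋) a ≥ X a₀ - |X| η a₀ + (ε|X| - 1) a₀`; `|J| ≥ β - α - 1`, and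
`β - α = (|X| a₀ (ε - 2 η) - a₀ - 2 E) / K ≥ (|X| a₀ ε / 2 - a₀ - 2 E) / K`.
`ub`: otherwise `piFinset J` is covered by the sets `{v | φ i v ∈ Exc}`, each of at most `Exc.card` elements.
-/

namespace Pool.Agent.H34.IR

open Finset

private theorem crt_aux {ι : Type*} (I : Finset ι) (a x : ι → ℤ)
    (hcop : ∀ i ∈ I, ∀ j ∈ I, i ≠ j → IsCoprime (a i) (a j)) (Q : ℤ)
    (haQ : ∀ i ∈ I, IsCoprime (a i) Q) (c : ℤ) :
    ∃ l : ℤ, (∀ i ∈ I, a i ∣ l - x i) ∧ Q ∣ l - c := by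
  classical
  induction I using Finset.induction_on with
  | empty => exact ⟨c, by simp, by simp⟩
  | insert i0 I hi ih =>
    obtain ⟨l, h1, h2⟩ := ih
      (fun i hi' j hj hij => hcop i (mem_insert_of_mem hi') j (mem_insert_of_mem hj) hij)
      (fun i hi' => haQ i (mem_insert_of_mem hi'))
    have h3 : IsCoprime (a i0) ((∏ i ∈ I, a i) * Q) := by
      refine IsCoprime.mul_right (IsCoprime.prod_right fun j hj => ?_) (haQ i0 (mem_insert_self _ _))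
      exact hcop i0 (mem_insert_self _ _) j (mem_insert_of_mem hj) (fun h => hi (h ▸ hj))
    obtain ⟨u, w, huw⟩ := h3
    refine ⟨l + ((∏ i ∈ I, a i) * Q) * (w * (x i0 - l)), fun i hi' => ?_, ?_⟩
    · rcases mem_insert.1 hi' with rfl | hi'
      · refine ⟨-(u * (x i - l)), ?_⟩
        linear_combination (x i - l) * huw
      · have h4 : a i ∣ ((∏ i ∈ I, a i) * Q) * (w * (x i0 - l)) :=
          ((dvd_prod_of_mem a hi').mul_right Q).mul_right _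
        have h5 : l + ((∏ i ∈ I, a i) * Q) * (w * (x i0 - l)) - x i =
            (l - x i) + ((∏ i ∈ I, a i) * Q) * (w * (x i0 - l)) := by ring
        rw [h5]
        exact dvd_add (h1 i hi') h4
    · have h4 : Q ∣ ((∏ i ∈ I, a i) * Q) * (w * (x i0 - l)) := (dvd_mul_left Q _).mul_right _
      have h5 : l + ((∏ i ∈ I, a i) * Q) * (w * (x i0 - l)) - c =
          (l - c) + ((∏ i ∈ I, a i) * Q) * (w * (x i0 - l)) := by ring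
      rw [h5]
      exact dvd_add h2 h4

theorem crt {ι : Type*} (I : Finset ι) (a x : ι → ℤ) (hpos : ∀ i ∈ I, 0 < a i)
    (hcop : ∀ i ∈ I, ∀ j ∈ I, i ≠ j → IsCoprime (a i) (a j)) (Q : ℤ) (hQ : 0 < Q)
    (haQ : ∀ i ∈ I, IsCoprime (a i) Q) (c : ℤ) :
    ∃ l : ℤ, 0 ≤ l ∧ l < (∏ i ∈ I, a i) * Q ∧ (∀ i ∈ I, a i ∣ l - x i) ∧ Q ∣ l - c := by
  obtain ⟨l, h1, h2⟩ := crt_aux I a x hcop Q haQ c
  have hM : 0 < (∏ i ∈ I, a i) * Q := mul_pos (prod_pos hpos) hQ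
  have h3 : (∏ i ∈ I, a i) * Q ∣ l % ((∏ i ∈ I, a i) * Q) - l := by
    rw [← dvd_neg, neg_sub]
    exact Int.dvd_self_sub_emod
  refine ⟨l % ((∏ i ∈ I, a i) * Q), Int.emod_nonneg _ hM.ne', Int.emod_lt_of_pos _ hM, fun i hi => ?_, ?_⟩
  · have h4 : l % ((∏ i ∈ I, a i) * Q) - x i = (l % ((∏ i ∈ I, a i) * Q) - l) + (l - x i) := by ring
    rw [h4]
    exact dvd_add (((dvd_prod_of_mem a hi).mul_right Q).trans h3) (h1 i hi)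
  · have h4 : l % ((∏ i ∈ I, a i) * Q) - c = (l % ((∏ i ∈ I, a i) * Q) - l) + (l - c) := by ring
    rw [h4]
    exact dvd_add ((dvd_mul_left Q _).trans h3) h2

theorem window (ε η a₀ E K : ℝ) (hε : 0 < ε) (hη : 0 ≤ η) (hηε : 4 * η ≤ ε) (ha : 0 < a₀) (hK : 0 < K)
    (hE : 0 ≤ E) :
    ∃ X₀ : ℕ, ∀ X : ℤ, (X₀ : ℤ) ≤ |X| → ∃ J : Finset ℤ, ε * a₀ / (4 * K) * |(X : ℝ)| ≤ (J.card : ℝ) ∧
      ∀ v ∈ J, ∀ a e : ℝ, a₀ ≤ a → a ≤ (1 + η) * a₀ → |e| ≤ E →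
        (X : ℝ) * a < K * v + e ∧ K * v + e ≤ ((X : ℝ) + ⌊ε * |(X : ℝ)|⌋) * a := by
  refine ⟨⌈4 * (a₀ + 2 * E + K) / (ε * a₀)⌉₊, fun X hX => ?_⟩
  have hX' : 4 * (a₀ + 2 * E + K) / (ε * a₀) ≤ |(X : ℝ)| := by
    refine (Nat.le_ceil _).trans ?_
    have h1 : ((⌈4 * (a₀ + 2 * E + K) / (ε * a₀)⌉₊ : ℤ) : ℝ) ≤ ((|X| : ℤ) : ℝ) := by exact_mod_cast hX
    rw [Int.cast_abs] at h1
    exact_mod_cast h1
  have hεa : 0 < ε * a₀ := mul_pos hε ha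
  have hX2 : 4 * (a₀ + 2 * E + K) ≤ |(X : ℝ)| * (ε * a₀) := (div_le_iff₀ hεa).1 hX'
  obtain ⟨Y, hY⟩ : ∃ Y : ℝ, Y = |(X : ℝ)| := ⟨_, rfl⟩
  obtain ⟨x, hx⟩ : ∃ x : ℝ, x = (X : ℝ) := ⟨_, rfl⟩
  have hxY : x ≤ Y ∧ -x ≤ Y ∧ 0 ≤ Y := by
    rw [hY, hx]
    exact ⟨le_abs_self _, neg_le_abs _, abs_nonneg _⟩
  obtain ⟨α, hα⟩ : ∃ α : ℝ, α = (x * a₀ + Y * η * a₀ + E) / K := ⟨_, rfl⟩
  obtain ⟨β, hβ⟩ : ∃ β : ℝ, β = (x * a₀ + Y * a₀ * (ε - η) - a₀ - E) / K := ⟨_, rfl⟩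
  have hαK : K * α = x * a₀ + Y * η * a₀ + E := by rw [hα]; field_simp
  have hβK : K * β = x * a₀ + Y * a₀ * (ε - η) - a₀ - E := by rw [hβ]; field_simp
  rw [← hY] at hX2
  rw [← hY, ← hx]
  have hYa : 0 ≤ Y * a₀ := mul_nonneg hxY.2.2 ha.le
  have hYη : Y * a₀ * (4 * η) ≤ Y * a₀ * ε := mul_le_mul_of_nonneg_left hηε hYa
  refine ⟨Ioc ⌊α⌋ ⌊β⌋, ?_, ?_⟩
  · have h1 : (⌊β⌋ - ⌊α⌋ : ℤ) ≤ ((Ioc ⌊α⌋ ⌊β⌋).card : ℤ) := by
      rw [Int.card_Ioc]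
      exact Int.self_le_toNat _
    have h2 : ((⌊β⌋ - ⌊α⌋ : ℤ) : ℝ) ≤ ((Ioc ⌊α⌋ ⌊β⌋).card : ℝ) := by exact_mod_cast h1
    have h3 : β - 1 < (⌊β⌋ : ℝ) := Int.sub_one_lt_floor β
    have h4 : (⌊α⌋ : ℝ) ≤ α := Int.floor_le α
    push_cast at h2
    have h5 : ε * a₀ / (4 * K) * Y ≤ β - α - 1 := by
      rw [div_mul_eq_mul_div, div_le_iff₀ (by positivity)]
      nlinarith
    linarith
  · intro v hv a e ha1 ha2 he
    rw [mem_Ioc] at hv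
    have hv1 : α < (v : ℝ) := Int.floor_lt.1 hv.1
    have hv2 : (v : ℝ) ≤ β := Int.le_floor.1 hv.2
    have he' := abs_le.1 he
    have k1 : K * α < K * v := mul_lt_mul_of_pos_left hv1 hK
    have k2 : K * v ≤ K * β := mul_le_mul_of_nonneg_left hv2 hK.le
    have k3 : 0 ≤ a - a₀ := by linarith
    have k4 : a - a₀ ≤ η * a₀ := by linarith
    have k5 : x * (a - a₀) ≤ Y * (η * a₀) :=
      (mul_le_mul_of_nonneg_right hxY.1 k3).trans (mul_le_mul_of_nonneg_left k4 hxY.2.2)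
    have k6 : -x * (a - a₀) ≤ Y * (η * a₀) :=
      (mul_le_mul_of_nonneg_right hxY.2.1 k3).trans (mul_le_mul_of_nonneg_left k4 hxY.2.2)
    have hf0 : (0 : ℝ) ≤ (⌊ε * Y⌋ : ℝ) := by
      have : 0 ≤ ⌊ε * Y⌋ := Int.floor_nonneg.2 (mul_nonneg hε.le hxY.2.2)
      exact_mod_cast this
    have hf1 : ε * Y - 1 < (⌊ε * Y⌋ : ℝ) := Int.sub_one_lt_floor _
    have k7 : (⌊ε * Y⌋ : ℝ) * a₀ ≤ (⌊ε * Y⌋ : ℝ) * a := mul_le_mul_of_nonneg_left ha1 hf0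
    have k8 : (ε * Y - 1) * a₀ ≤ (⌊ε * Y⌋ : ℝ) * a₀ := mul_le_mul_of_nonneg_right hf1.le ha.le
    constructor
    · nlinarith
    · nlinarith

theorem ub {ι : Type*} {k : ℕ} (J : Fin k → Finset ℤ) (I : Finset ι) (φ : ι → (Fin k → ℤ) → (Fin k → ℤ))
    (Exc : Finset (Fin k → ℤ)) (hinj : ∀ i ∈ I, Function.Injective (φ i))
    (hlt : I.card * Exc.card < ∏ j, (J j).card) : ∃ v : Fin k → ℤ, (∀ j, v j ∈ J j) ∧ ∀ i ∈ I, φ i v ∉ Exc := by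
  classical
  by_contra hcon
  push Not at hcon
  have h1 : Fintype.piFinset J ⊆ I.biUnion fun i => (Fintype.piFinset J).filter fun v => φ i v ∈ Exc := by
    intro v hv
    obtain ⟨i, hi, h⟩ := hcon v (Fintype.mem_piFinset.1 hv)
    exact mem_biUnion.2 ⟨i, hi, mem_filter.2 ⟨hv, h⟩⟩
  have h2 : (Fintype.piFinset J).card ≤ I.card * Exc.card := by
    refine (card_le_card h1).trans (card_biUnion_le_card_mul _ _ _ fun i hi => ?_)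
    refine card_le_card_of_injOn (φ i) (fun v hv => ?_) (hinj i hi).injOn
    exact (mem_filter.1 hv).2
  rw [Fintype.card_piFinset] at h2
  omega

end Pool.Agent.H34.IR
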