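import Pool.Agent.H34.IR.Def
import Pool.Agent.H34.IR.Win

/-!
# [H34 IR PLACE] IntegerRatios (MP_8923e7_nt): the choice of the translations of the children number `≥ 2`

`P = (∏ a) Q`; the child number `j + 2` is `β j + P G`. `crt` gives `l j` with `a p ∣ l j - x p`, `l j = c j mod Q`, and
`β j = l j + P D ((k + 1) v j + j)`, `D = 2 Δ + 1`, with `v` from the union bound.
-/

namespace Pool.Agent.H34.IR

open Finset

theorem bound_of (G : Finset ℤ) : ∃ Δ : ℤ, 0 ≤ Δ ∧ ∀ g ∈ G, |g| ≤ Δ := by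
  refine ⟨∑ g ∈ G, |g|, Finset.sum_nonneg fun g _ => abs_nonneg g, fun g hg => ?_⟩
  exact Finset.single_le_sum (f := fun g => |g|) (fun g _ => abs_nonneg g) hg

theorem place {ι : Type*} {k : ℕ} (Q : ℕ) (hQ : 0 < Q) (ε : ℝ) (hε : 0 < ε) (hε1 : ε < 1)
    (B : ℤ → (Fin k → ℤ) → Prop) (hL : Lrg ε Q B) (M₁ : ℤ) (I : Finset ι) (a x : ι → ℤ) (a₀ : ℤ) (ha₀ : 0 < a₀)
    (ha : ∀ p ∈ I, a₀ ≤ a p ∧ (a p : ℝ) ≤ (1 + ε / 4) * a₀)
    (hcop : ∀ p ∈ I, ∀ q ∈ I, p ≠ q → IsCoprime (a p) (a q)) (haQ : ∀ p ∈ I, (Q : ℤ) ∣ a p - 1)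
    (hxQ : ∀ p ∈ I, (Q : ℤ) ∣ x p) (G : Finset ℤ) :
    ∃ β : Fin k → ℤ,
      (∀ p ∈ I, ∀ γ : Fin k → ℤ, (∀ j, γ j ∈ G) → ∃ t : Fin k → ℤ,
        (∀ j, β j + (∏ q ∈ I, a q) * Q * γ j = x p + t j * a p) ∧ B M₁ t) ∧
      (∀ j, (∀ p ∈ I, ∀ g ∈ G, x p + a p < β j + (∏ q ∈ I, a q) * Q * g) ∨
        ∀ p ∈ I, ∀ g ∈ G, β j + (∏ q ∈ I, a q) * Q * g < x p) ∧
      ∀ j j', j ≠ j' → (∀ g ∈ G, ∀ g' ∈ G,
          β j + (∏ q ∈ I, a q) * Q * g < β j' + (∏ q ∈ I, a q) * Q * g') ∨
        ∀ g ∈ G, ∀ g' ∈ G, β j' + (∏ q ∈ I, a q) * Q * g' < β j + (∏ q ∈ I, a q) * Q * g := by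
  classical
  have hapos : ∀ p ∈ I, 0 < a p := fun p hp => lt_of_lt_of_le ha₀ (ha p hp).1
  have hQ' : (0 : ℤ) < Q := by exact_mod_cast hQ
  have hacQ : ∀ p ∈ I, IsCoprime (a p) (Q : ℤ) := by
    intro p hp
    obtain ⟨c, hc⟩ := haQ p hp
    exact ⟨1, -c, by linear_combination hc⟩
  obtain ⟨M, hM⟩ : ∃ M : ℤ, M = ∏ q ∈ I, a q := ⟨_, rfl⟩
  have hMpos : 0 < M := by
    rw [hM]
    exact Finset.prod_pos hapos
  have hMdvd : ∀ p ∈ I, a p ∣ M := fun p hp => hM ▸ Finset.dvd_prod_of_mem a hp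
  obtain ⟨P, hP⟩ : ∃ P : ℤ, P = M * Q := ⟨_, rfl⟩
  have hPpos : 0 < P := by
    rw [hP]
    positivity
  have hPdvd : ∀ p ∈ I, a p ∣ P := fun p hp => hP ▸ Dvd.dvd.mul_right (hMdvd p hp) _
  have hQP : (Q : ℤ) ∣ P := hP ▸ Dvd.intro_left _ rfl
  rw [← hM, ← hP]
  obtain ⟨Δ, hΔ0, hΔ⟩ := bound_of G
  obtain ⟨D, hD⟩ : ∃ D : ℤ, D = 2 * Δ + 1 := ⟨_, rfl⟩
  have hDpos : 0 < D := by omega
  obtain ⟨Ex, hEx0, hEx⟩ := bound_of (I.image x)
  have hEx' : ∀ p ∈ I, |x p| ≤ Ex := fun p hp => hEx _ (Finset.mem_image_of_mem x hp)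
  obtain ⟨K, hK⟩ : ∃ K : ℤ, K = P * D * (k + 1) := ⟨_, rfl⟩
  have hKpos : 0 < K := by
    rw [hK]
    positivity
  obtain ⟨E, hE⟩ : ∃ E : ℤ, E = P + P * D * k + P * Δ + Ex := ⟨_, rfl⟩
  have hE0 : 0 ≤ E := by
    rw [hE]
    positivity
  obtain ⟨X₁, hX₁⟩ := window ε (ε / 4) a₀ E K hε (by positivity) (by linarith) (by exact_mod_cast ha₀)
    (by exact_mod_cast hKpos) (by exact_mod_cast hE0)
  obtain ⟨ρ, hρ⟩ : ∃ ρ : ℝ, ρ = ε * a₀ / (4 * K) := ⟨_, rfl⟩
  have hρpos : 0 < ρ := by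
    rw [hρ]
    have h1 : (0 : ℝ) < a₀ := by exact_mod_cast ha₀
    have h2 : (0 : ℝ) < K := by exact_mod_cast hKpos
    positivity
  obtain ⟨II, hII⟩ : ∃ II : Finset (ι × (Fin k → ℤ)), II = I ×ˢ Fintype.piFinset fun _ : Fin k => G := ⟨_, rfl⟩
  obtain ⟨δ, hδ⟩ : ∃ δ : ℝ, δ = ρ ^ k / (2 * (II.card + 1)) := ⟨_, rfl⟩
  have hδpos : 0 < δ := by
    rw [hδ]
    positivity
  obtain ⟨X, c, hX, hfew⟩ := hL M₁ (X₁ + 1) δ hδpos
  have hX1 : ∀ j, (X₁ : ℤ) ≤ |X j| := fun j => by
    have := hX j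
    push_cast at this
    omega
  have hX0 : ∀ j, 1 ≤ |X j| := fun j => by
    have := hX j
    push_cast at this
    omega
  have hl := fun j => crt I a x hapos hcop Q hQ' hacQ (c j)
  rw [← hM] at hl
  choose l hl0 hl1 hla hlQ using hl
  rw [← hP] at hl1
  choose J hJ1 hJ2 using fun j => hX₁ (X j) (hX1 j)
  -- the exceptional set
  obtain ⟨Exc, hExc⟩ : ∃ Exc : Finset (Fin k → ℤ),
    Exc = (Box ε X).filter fun t => (∀ j, t j ≡ c j [ZMOD Q]) ∧ ¬ B M₁ t := ⟨_, rfl⟩
  have hfew' : (Exc.card : ℝ) ≤ δ * ∏ j, |(X j : ℝ)| := by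
    refine hfew Exc fun t ht => ?_
    rw [hExc, mem_filter] at ht
    exact ht
  have hdvd : ∀ p ∈ I, ∀ j, ∀ w g : ℤ, a p ∣ l j + P * D * w + P * g - x p := by
    intro p hp j w g
    have h1 := hla j p hp
    have h2 : a p ∣ P * (D * w + g) := Dvd.dvd.mul_right (hPdvd p hp) _
    have h3 := dvd_add h1 h2
    have e : l j - x p + P * (D * w + g) = l j + P * D * w + P * g - x p := by ring
    rwa [e] at h3
  have hlt : II.card * Exc.card < ∏ j, (J j).card := by
    have h1 : (∏ j, ρ * |(X j : ℝ)|) ≤ ((∏ j, (J j).card : ℕ) : ℝ) := by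
      push_cast
      refine Finset.prod_le_prod (fun j _ => by positivity) fun j _ => ?_
      rw [hρ]
      exact hJ1 j
    have h2 : (∏ j, ρ * |(X j : ℝ)|) = ρ ^ k * ∏ j, |(X j : ℝ)| := by
      rw [Finset.prod_mul_distrib, Finset.prod_const, Finset.card_univ, Fintype.card_fin]
    have h3 : 0 < ∏ j, |(X j : ℝ)| := by
      refine Finset.prod_pos fun j _ => ?_
      have := hX0 j
      have h4 : (1 : ℝ) ≤ |(X j : ℝ)| := by exact_mod_cast this
      linarith
    have h4 : ((II.card * Exc.card : ℕ) : ℝ) < ρ ^ k * ∏ j, |(X j : ℝ)| := by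
      push_cast
      calc (II.card : ℝ) * Exc.card ≤ II.card * (δ * ∏ j, |(X j : ℝ)|) :=
            mul_le_mul_of_nonneg_left hfew' (by positivity)
        _ = (II.card * δ) * ∏ j, |(X j : ℝ)| := by ring
        _ < ρ ^ k * ∏ j, |(X j : ℝ)| := by
            refine mul_lt_mul_of_pos_right ?_ h3
            rw [hδ, ← mul_div_assoc, div_lt_iff₀ (by positivity)]
            have h5 : 0 < ρ ^ k := by positivity
            nlinarith [h5, (Nat.cast_nonneg II.card : (0 : ℝ) ≤ II.card)]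
    have h5 := lt_of_lt_of_le h4 (h2 ▸ h1)
    exact_mod_cast h5
  obtain ⟨v, hv, hvE⟩ := ub J II
    (fun q v j => (l j + P * D * ((k + 1) * v j + j) + P * q.2 j - x q.1) / a q.1) Exc
    (by
      intro q hq v v' hvv
      rw [hII, mem_product] at hq
      funext j
      have h1 := congrFun hvv j
      have ha1 := hapos q.1 hq.1
      have h2 := hdvd q.1 hq.1 j ((k + 1) * v j + j) (q.2 j)
      have h3 := hdvd q.1 hq.1 j ((k + 1) * v' j + j) (q.2 j)
      simp only at h1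
      have h4 : l j + P * D * ((k + 1) * v j + j) + P * q.2 j - x q.1 =
          l j + P * D * ((k + 1) * v' j + j) + P * q.2 j - x q.1 := by
        rw [← Int.ediv_mul_cancel h2, ← Int.ediv_mul_cancel h3, h1]
      have h5 : P * D * ((k : ℤ) + 1) * (v j - v' j) = 0 := by linear_combination h4
      have h6 : P * D * ((k : ℤ) + 1) ≠ 0 := by positivity
      have h7 := (mul_eq_zero.1 h5).resolve_left h6
      omega) hlt
  -- inequalities
  have key : ∀ p ∈ I, ∀ j, ∀ g ∈ G,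
      X j * a p < l j + P * D * ((k + 1) * v j + j) + P * g - x p ∧
      l j + P * D * ((k + 1) * v j + j) + P * g - x p ≤ (X j + ⌊ε * |(X j : ℝ)|⌋) * a p := by
    intro p hp j g hg
    have h1 := hJ2 j (v j) (hv j) (a p) (l j + P * D * j + P * g - x p : ℤ)
      (by exact_mod_cast (ha p hp).1) (ha p hp).2 (by
        rw [← Int.cast_abs]
        have hj : (j : ℤ) ≤ k := by
          have := j.2
          omega
        have hj0 : (0 : ℤ) ≤ j := by positivity
        have h2 := abs_le.1 (hΔ g hg)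
        have h3 := abs_le.1 (hEx' p hp)
        have h4 : |l j + P * D * j + P * g - x p| ≤ E := by
          rw [abs_le, hE]
          have e1 : 0 ≤ P * D * (j : ℤ) := by positivity
          have e2 : P * D * (j : ℤ) ≤ P * D * k := by
            exact mul_le_mul_of_nonneg_left hj (by positivity)
          have e3 : P * g ≤ P * Δ := mul_le_mul_of_nonneg_left h2.2 hPpos.le
          have e4 : P * (-Δ) ≤ P * g := mul_le_mul_of_nonneg_left h2.1 hPpos.le
          have e5 := hl0 j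
          have e6 := hl1 j
          constructor <;> nlinarith
        exact_mod_cast h4)
    have e : (K : ℝ) * (v j : ℝ) + ((l j + P * D * j + P * g - x p : ℤ) : ℝ) =
        ((l j + P * D * ((k + 1) * v j + j) + P * g - x p : ℤ) : ℝ) := by
      rw [hK]
      push_cast
      ring
    rw [e] at h1
    exact ⟨by exact_mod_cast h1.1, by exact_mod_cast h1.2⟩
  refine ⟨fun j => l j + P * D * ((k + 1) * v j + j), ?_, ?_, ?_⟩
  · intro p hp γ hγ
    obtain ⟨t, ht⟩ : ∃ t : Fin k → ℤ, t = fun j =>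
      (l j + P * D * ((k + 1) * v j + j) + P * γ j - x p) / a p := ⟨_, rfl⟩
    have ha1 := hapos p hp
    have hta : ∀ j, t j * a p = l j + P * D * ((k + 1) * v j + j) + P * γ j - x p := by
      intro j
      rw [ht]
      exact Int.ediv_mul_cancel (hdvd p hp j _ _)
    refine ⟨t, fun j => ?_, ?_⟩
    · rw [hta j]
      ring
    · have h1 : t ∉ Exc := by
        rw [ht]
        refine hvE (p, γ) ?_
        rw [hII, mem_product]
        exact ⟨hp, Fintype.mem_piFinset.2 hγ⟩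
      by_contra hB
      refine h1 ?_
      rw [hExc, mem_filter]
      refine ⟨?_, fun j => ?_, hB⟩
      · unfold Box
        rw [Fintype.mem_piFinset]
        intro j
        rw [mem_Ioc]
        have h2 := key p hp j (γ j) (hγ j)
        rw [← hta j] at h2
        exact ⟨lt_of_mul_lt_mul_right h2.1 ha1.le, le_of_mul_le_mul_right h2.2 ha1⟩
      · have h2 := hta j
        obtain ⟨c1, hc1⟩ := haQ p hp
        obtain ⟨c2, hc2⟩ := hxQ p hp
        obtain ⟨c3, hc3⟩ := hlQ j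
        obtain ⟨c4, hc4⟩ := hQP
        refine (Int.modEq_iff_dvd.2 ?_).symm
        refine ⟨c3 + c4 * (D * ((k + 1) * v j + j) + γ j) - c2 - c1 * t j, ?_⟩
        have e1 : t j = l j + P * (D * ((k + 1) * v j + j) + γ j) - x p - (a p - 1) * t j := by
          linear_combination h2
        rw [hc1, hc2, hc4] at e1
        linear_combination e1 + hc3
  · intro j
    rcases lt_or_gt_of_ne (show X j ≠ 0 from fun h => by
      have := hX0 j
      rw [h] at this
      simp at this) with hneg | hpos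
    · right
      intro p hp g hg
      have h1 := (key p hp j g hg).2
      have h2 : X j + ⌊ε * |(X j : ℝ)|⌋ < 0 := by
        have h3 : (⌊ε * |(X j : ℝ)|⌋ : ℝ) ≤ ε * |(X j : ℝ)| := Int.floor_le _
        have h4 : (X j : ℝ) < 0 := by exact_mod_cast hneg
        rw [abs_of_neg h4] at h3
        have h5 : ((X j + ⌊ε * |(X j : ℝ)|⌋ : ℤ) : ℝ) < 0 := by
          push_cast
          rw [abs_of_neg h4]
          nlinarith
        exact_mod_cast h5
      have h3 := mul_neg_of_neg_of_pos h2 (hapos p hp)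
      linarith
    · left
      intro p hp g hg
      have h1 := (key p hp j g hg).1
      have h2 : a p ≤ X j * a p := le_mul_of_one_le_left (hapos p hp).le hpos
      linarith
  · intro j j' hjj
    have main : ∀ j j' : Fin k, (k + 1) * v j + (j : ℤ) < (k + 1) * v j' + (j' : ℤ) → ∀ g ∈ G, ∀ g' ∈ G,
        l j + P * D * ((k + 1) * v j + j) + P * g < l j' + P * D * ((k + 1) * v j' + j') + P * g' := by
      intro j j' hlt g hg g' hg'
      have h1 := abs_le.1 (hΔ g hg)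
      have h2 := abs_le.1 (hΔ g' hg')
      have h3 := hl1 j
      have h4 := hl0 j'
      have h5 : 1 ≤ D * (((k + 1) * v j' + (j' : ℤ)) - ((k + 1) * v j + (j : ℤ))) + (g' - g) := by
        have h6 : D ≤ D * (((k + 1) * v j' + (j' : ℤ)) - ((k + 1) * v j + (j : ℤ))) :=
          le_mul_of_one_le_right hDpos.le (by omega)
        omega
      have h6 : P * 1 ≤ P * (D * (((k + 1) * v j' + (j' : ℤ)) - ((k + 1) * v j + (j : ℤ))) + (g' - g)) :=
        mul_le_mul_of_nonneg_left h5 hPpos.le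
      nlinarith
    have hne : (k + 1) * v j + (j : ℤ) ≠ (k + 1) * v j' + (j' : ℤ) := by
      intro h
      apply hjj
      have h1 : ((k : ℤ) + 1) * (v j - v j') = (j' : ℤ) - j := by linear_combination h
      have h2 := j.2
      have h3 := j'.2
      have h4 : v j = v j' := by
        by_contra hvv
        rcases lt_or_gt_of_ne hvv with h5 | h5
        · have h6 : v j - v j' ≤ -1 := by omega
          nlinarith
        · have h6 : 1 ≤ v j - v j' := by omega
          nlinarith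
      rw [h4, sub_self, mul_zero] at h1
      apply Fin.ext
      omega
    rcases lt_or_gt_of_ne hne with h | h
    · left
      exact main j j' h
    · right
      intro g hg g' hg'
      exact main j' j h g' hg' g hg

end Pool.Agent.H34.IR
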