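import Pool.Agent.H34.IR.Place
import Pool.Agent.H34.IR.Cop

/-!
# [H34 IR STEP] IntegerRatios (MP_8923e7_nt): the step of the construction

`C_0 = A G_0`, `C_1 = Λ + A A' G_1`, `C_(j+2) = β j + P G_2`.
-/

namespace Pool.Agent.H34.IR

open Finset

/-- the affine image of a tree of blocks -/
def aff {κ d : ℕ} (α β : ℤ) (V : (Fin d → Fin κ) → Finset ℤ) : (Fin d → Fin κ) → Finset ℤ :=
  fun w => (V w).image fun g => β + α * g

theorem mem_aff {κ d : ℕ} {α β : ℤ} {V : (Fin d → Fin κ) → Finset ℤ} {w : Fin d → Fin κ} {y : ℤ} :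
    y ∈ aff α β V w ↔ ∃ g ∈ V w, β + α * g = y := by
  unfold aff
  rw [mem_image]

theorem card_aff {κ d : ℕ} {α β : ℤ} (hα : 0 < α) (V : (Fin d → Fin κ) → Finset ℤ) (w : Fin d → Fin κ) :
    (aff α β V w).card = (V w).card := by
  unfold aff
  refine card_image_of_injective _ fun g g' h => ?_
  have h1 : β + α * g = β + α * g' := h
  have h2 : α * g = α * g' := by linarith
  exact mul_left_cancel₀ hα.ne' h2

theorem nodes_aff {k : ℕ} (B : ℤ → (Fin k → ℤ) → Prop) (F α β : ℤ) (hα : 0 < α) (d : ℕ) :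
    ∀ V : (Fin d → Fin (k + 2)) → Finset ℤ, Nodes (NP B (F * α)) d V → Nodes (NP B F) d (aff α β V) := by
  induction d with
  | zero => intro V _; trivial
  | succ d ih =>
    intro V hV
    refine ⟨fun u hu => ?_, fun i => ih _ (hV.2 i)⟩
    choose w hw using hu
    have hw' : ∀ i, ∃ g ∈ V (Fin.cons i (w i)), β + α * g = u i := fun i => mem_aff.1 (hw i)
    choose g hg hgu using hw'
    obtain ⟨h1, t, h2, h3⟩ := hV.1 g fun i => ⟨w i, hg i⟩
    refine ⟨?_, t, fun j => ?_, ?_⟩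
    · rw [← hgu 0, ← hgu 1]
      have := mul_lt_mul_of_pos_left h1 hα
      linarith
    · rw [← hgu, ← hgu 0, ← hgu 1, h2 j]
      ring
    · have e : F * (β + α * g 1 - (β + α * g 0)) = F * α * (g 1 - g 0) := by ring
      rw [← hgu 0, ← hgu 1, e]
      exact h3

theorem sep_aff {κ : ℕ} (α β : ℤ) (hα : 0 < α) (d : ℕ) :
    ∀ V : (Fin d → Fin κ) → Finset ℤ, Sep d V → Sep d (aff α β V) := by
  induction d with
  | zero => intro V _; trivial
  | succ d ih =>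
    intro V hV
    refine ⟨fun i j hij => ?_, fun i => ih _ (hV.2 i)⟩
    rcases hV.1 i j hij with h | h
    · left
      intro v w x hx y hy
      obtain ⟨g, hg, rfl⟩ := mem_aff.1 hx
      obtain ⟨g', hg', rfl⟩ := mem_aff.1 hy
      have := mul_lt_mul_of_pos_left (h v w g hg g' hg') hα
      linarith
    · right
      intro v w x hx y hy
      obtain ⟨g, hg, rfl⟩ := mem_aff.1 hx
      obtain ⟨g', hg', rfl⟩ := mem_aff.1 hy
      have := mul_lt_mul_of_pos_left (h v w g hg g' hg') hα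
      linarith

/-- all points of a tree of blocks -/
def pts {κ d : ℕ} (V : (Fin d → Fin κ) → Finset ℤ) : Finset ℤ := univ.biUnion V

theorem mem_pts {κ d : ℕ} {V : (Fin d → Fin κ) → Finset ℤ} {y : ℤ} : y ∈ pts V ↔ ∃ w, y ∈ V w := by
  unfold pts
  simp

theorem card_pts {κ d s : ℕ} (V : (Fin d → Fin κ) → Finset ℤ) (h : ∀ w, (V w).card = s) :
    (pts V).card ≤ κ ^ d * s := by
  unfold pts
  refine card_biUnion_le.trans ?_
  rw [Finset.sum_congr rfl fun w _ => h w]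
  simp

/-- the children of the new root -/
def chil {k d : ℕ} (α₀ β₀ α₁ β₁ α₂ : ℤ) (β : Fin k → ℤ) (V₀ V₁ V₂ : (Fin d → Fin (k + 2)) → Finset ℤ) :
    Fin (k + 2) → (Fin d → Fin (k + 2)) → Finset ℤ :=
  Fin.cons (aff α₀ β₀ V₀) (Fin.cons (aff α₁ β₁ V₁) fun j : Fin k => aff α₂ (β j) V₂)

theorem glue {κ d : ℕ} (P : (Fin κ → ℤ) → Prop) (s : ℕ) (W : Fin κ → (Fin d → Fin κ) → Finset ℤ)
    (hW : ∀ i, Nodes P d (W i)) (hS : ∀ i, Sep d (W i)) (hc : ∀ i w, (W i w).card = s)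
    (hP : ∀ u : Fin κ → ℤ, (∀ i, ∃ w, u i ∈ W i w) → P u)
    (hsep : ∀ i j, i ≠ j → (∀ x ∈ pts (W i), ∀ y ∈ pts (W j), x < y) ∨ ∀ x ∈ pts (W i), ∀ y ∈ pts (W j), y < x) :
    ∃ V : (Fin (d + 1) → Fin κ) → Finset ℤ, (∀ w, (V w).card = s) ∧ Nodes P (d + 1) V ∧ Sep (d + 1) V := by
  refine ⟨fun w => W (w 0) (Fin.tail w), fun w => hc _ _, ⟨fun u hu => hP u fun i => ?_, fun i => ?_⟩,
    ⟨fun i j hij => ?_, fun i => ?_⟩⟩
  · obtain ⟨w, hw⟩ := hu i
    refine ⟨w, ?_⟩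
    simpa using hw
  · simpa using hW i
  · rcases hsep i j hij with h | h
    · left
      intro v w x hx y hy
      refine h x (mem_pts.2 ⟨v, ?_⟩) y (mem_pts.2 ⟨w, ?_⟩)
      · simpa using hx
      · simpa using hy
    · right
      intro v w x hx y hy
      refine h x (mem_pts.2 ⟨v, ?_⟩) y (mem_pts.2 ⟨w, ?_⟩)
      · simpa using hx
      · simpa using hy
  · simpa using hS i

theorem step {k : ℕ} (Q : ℕ) (hQ : 0 < Q) (ε : ℝ) (hε : 0 < ε) (hε1 : ε < 1) (B : ℤ → (Fin k → ℤ) → Prop)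
    (hanti : ∀ M M' t, M ≤ M' → B M' t → B M t) (hL : Lrg ε Q B) (s d : ℕ) (hs : 1 ≤ s) (ih : Bld B s d) :
    Bld B s (d + 1) := by
  classical
  intro F hF
  obtain ⟨n, hn⟩ : ∃ n : ℕ, n = ((k + 2) ^ d * s) * ((k + 2) ^ d * s) := ⟨_, rfl⟩
  obtain ⟨A, hA⟩ : ∃ A : ℕ, A = Q * n.factorial := ⟨_, rfl⟩
  have hApos : 0 < A := by
    rw [hA]
    exact Nat.mul_pos hQ n.factorial_pos
  have hA' : (0 : ℤ) < A := by exact_mod_cast hApos
  have hnA : ∀ p : ℕ, p.Prime → p ≤ n → p ∣ A := fun p hp hpn => by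
    rw [hA]
    exact Dvd.dvd.mul_left ((hp.dvd_factorial).2 hpn) _
  have hQA : (Q : ℤ) ∣ A := by
    rw [hA]
    push_cast
    exact Dvd.intro _ rfl
  obtain ⟨V₀, hc₀, hN₀, hS₀⟩ := ih (F * A) (by nlinarith)
  obtain ⟨Δ₀, hΔ₀, hb₀⟩ := bound_of (pts V₀)
  obtain ⟨A', hA'e⟩ : ∃ A' : ℤ, A' = 2 * Δ₀ + 1 := ⟨_, rfl⟩
  have hA'pos : 0 < A' := by omega
  obtain ⟨V₁, hc₁, hN₁, hS₁⟩ := ih (F * (A * A')) (by
    have : 0 < A * A' := by positivity
    nlinarith)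
  obtain ⟨Δ₁, hΔ₁, hb₁⟩ := bound_of (pts V₁)
  obtain ⟨E, hE⟩ : ∃ E : ℤ, E = A * A' * Δ₁ + A * Δ₀ := ⟨_, rfl⟩
  have hE0 : 0 ≤ E := by
    rw [hE]
    positivity
  obtain ⟨L, hLe⟩ : ∃ L : ℕ, L = ⌈(E : ℝ) + 8 * E / ε⌉₊ + 1 := ⟨_, rfl⟩
  obtain ⟨Λ, hΛL, hΛ⟩ := pairs_cop A n hApos hnA (pts V₀) (pts V₁)
    (by
      rw [hn]
      exact Nat.mul_le_mul (card_pts V₀ hc₀) (card_pts V₁ hc₁)) A'
    (fun g hg g' hg' => by
      have h1 := abs_le.1 (hb₀ g hg)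
      have h2 := abs_le.1 (hb₀ g' hg')
      rw [abs_lt]
      constructor <;> omega) L
  have hΛr : (E : ℝ) + 8 * E / ε + 1 ≤ (Λ : ℝ) := by
    have h1 : (L : ℝ) ≤ Λ := by exact_mod_cast hΛL
    have h2 := Nat.le_ceil ((E : ℝ) + 8 * E / ε)
    rw [hLe] at h1
    push_cast at h1
    linarith
  obtain ⟨a, ha⟩ : ∃ a : ℤ × ℤ → ℤ, a = fun p => (Λ : ℤ) + A * A' * p.2 - A * p.1 := ⟨_, rfl⟩
  obtain ⟨x, hx⟩ : ∃ x : ℤ × ℤ → ℤ, x = fun p => (A : ℤ) * p.1 := ⟨_, rfl⟩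
  obtain ⟨I, hI⟩ : ∃ I : Finset (ℤ × ℤ), I = pts V₀ ×ˢ pts V₁ := ⟨_, rfl⟩
  obtain ⟨a₀, ha₀⟩ : ∃ a₀ : ℤ, a₀ = Λ - E := ⟨_, rfl⟩
  have hEε : 0 ≤ 8 * (E : ℝ) / ε := by
    have : (0 : ℝ) ≤ E := by exact_mod_cast hE0
    positivity
  have ha₀pos : 0 < a₀ := by
    have h1 : (0 : ℝ) < a₀ := by
      rw [ha₀]
      push_cast
      linarith
    exact_mod_cast h1
  have habs : ∀ p ∈ I, |A * A' * p.2 - A * p.1| ≤ E := by
    intro p hp
    rw [hI, mem_product] at hp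
    have h1 := abs_le.1 (hb₀ p.1 hp.1)
    have h2 := abs_le.1 (hb₁ p.2 hp.2)
    rw [abs_le, hE]
    have e1 : A * A' * p.2 ≤ A * A' * Δ₁ := mul_le_mul_of_nonneg_left h2.2 (by positivity)
    have e2 : A * A' * (-Δ₁) ≤ A * A' * p.2 := mul_le_mul_of_nonneg_left h2.1 (by positivity)
    have e3 : A * p.1 ≤ A * Δ₀ := mul_le_mul_of_nonneg_left h1.2 hA'.le
    have e4 : A * (-Δ₀) ≤ A * p.1 := mul_le_mul_of_nonneg_left h1.1 hA'.le
    constructor <;> linarith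
  have hale : ∀ p ∈ I, a₀ ≤ a p ∧ a p ≤ Λ + E := by
    intro p hp
    have h1 := abs_le.1 (habs p hp)
    rw [ha, ha₀]
    constructor <;> simp only <;> linarith
  have hapos : ∀ p ∈ I, 0 < a p := fun p hp => lt_of_lt_of_le ha₀pos (hale p hp).1
  have hPpos : 0 < (∏ q ∈ I, a q) * (Q : ℤ) := mul_pos (Finset.prod_pos hapos) (by exact_mod_cast hQ)
  obtain ⟨V₂, hc₂, hN₂, hS₂⟩ := ih (F * ((∏ q ∈ I, a q) * Q)) (by nlinarith)
  obtain ⟨β, h1, h2, h3⟩ := place Q hQ ε hε hε1 B hL (F * (Λ + E)) I a x a₀ ha₀pos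
    (fun p hp => ⟨(hale p hp).1, by
      have e1 : (a p : ℝ) ≤ Λ + E := by exact_mod_cast (hale p hp).2
      have e2 : (a₀ : ℝ) = Λ - E := by
        rw [ha₀]
        push_cast
        ring
      rw [e2]
      have e3 : 8 * (E : ℝ) ≤ ε * (Λ - E) := by
        have e4 : 8 * (E : ℝ) / ε ≤ Λ - E := by linarith
        rw [div_le_iff₀ hε] at e4
        linarith
      linarith⟩)
    (fun p hp q hq hpq => by
      rw [hI, mem_product] at hp hq
      have e1 := (hΛ p.1 hp.1 p.2 hp.2).2 q.1 hq.1 q.2 hq.2 (by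
        intro h
        exact hpq h)
      rw [ha]
      exact e1)
    (fun p hp => by
      rw [hI, mem_product] at hp
      have e1 := (hΛ p.1 hp.1 p.2 hp.2).1
      rw [ha]
      exact dvd_trans hQA e1)
    (fun p _ => by
      rw [hx]
      exact Dvd.dvd.mul_right hQA _) (pts V₂)
  obtain ⟨P, hP⟩ : ∃ P : ℤ, P = (∏ q ∈ I, a q) * Q := ⟨_, rfl⟩
  rw [← hP] at h1 h2 h3 hPpos hN₂
  have hmI : ∀ g ∈ pts V₀, ∀ h ∈ pts V₁, (g, h) ∈ I := fun g hg h hh => by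
    rw [hI]
    exact mem_product.2 ⟨hg, hh⟩
  have hne₀ : ∃ g, g ∈ pts V₀ := by
    have : 0 < (V₀ fun _ => 0).card := by
      rw [hc₀]
      omega
    obtain ⟨g, hg⟩ := Finset.card_pos.1 this
    exact ⟨g, mem_pts.2 ⟨_, hg⟩⟩
  have hne₁ : ∃ g, g ∈ pts V₁ := by
    have : 0 < (V₁ fun _ => 0).card := by
      rw [hc₁]
      omega
    obtain ⟨g, hg⟩ := Finset.card_pos.1 this
    exact ⟨g, mem_pts.2 ⟨_, hg⟩⟩
  have hpa : ∀ (α β : ℤ) (V : (Fin d → Fin (k + 2)) → Finset ℤ) (y : ℤ),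
      y ∈ pts (aff α β V) → ∃ g ∈ pts V, β + α * g = y := by
    intro α β V y hy
    obtain ⟨w, hw⟩ := mem_pts.1 hy
    obtain ⟨g, hg, e⟩ := mem_aff.1 hw
    exact ⟨g, mem_pts.2 ⟨w, hg⟩, e⟩
  obtain ⟨W, hW⟩ : ∃ W, W = chil (A : ℤ) 0 (A * A') Λ P β V₀ V₁ V₂ := ⟨_, rfl⟩
  have hW0 : W 0 = aff (A : ℤ) 0 V₀ := by rw [hW]; rfl
  have hW1 : W 1 = aff (A * A' : ℤ) Λ V₁ := by rw [hW]; rfl
  have hW2 : ∀ j : Fin k, W j.succ.succ = aff P (β j) V₂ := fun j => by rw [hW]; rfl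
  refine glue (NP B F) s W ?_ ?_ ?_ ?_ ?_
  · refine Fin.cases ?_ (Fin.cases ?_ fun j => ?_)
    · rw [hW0]
      exact nodes_aff B F A 0 hA' d V₀ hN₀
    · rw [Fin.succ_zero_eq_one, hW1]
      exact nodes_aff B F (A * A') Λ (by positivity) d V₁ hN₁
    · rw [hW2]
      exact nodes_aff B F P (β j) hPpos d V₂ hN₂
  · refine Fin.cases ?_ (Fin.cases ?_ fun j => ?_)
    · rw [hW0]
      exact sep_aff A 0 hA' d V₀ hS₀
    · rw [Fin.succ_zero_eq_one, hW1]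
      exact sep_aff (A * A') Λ (by positivity) d V₁ hS₁
    · rw [hW2]
      exact sep_aff P (β j) hPpos d V₂ hS₂
  · refine Fin.cases ?_ (Fin.cases ?_ fun j => ?_)
    · intro w
      rw [hW0, card_aff hA', hc₀]
    · intro w
      rw [Fin.succ_zero_eq_one, hW1, card_aff (by positivity), hc₁]
    · intro w
      rw [hW2, card_aff hPpos, hc₂]
  · intro u hu
    obtain ⟨w0, hu0⟩ := hu 0
    obtain ⟨w1, hu1⟩ := hu 1
    rw [hW0] at hu0
    rw [hW1] at hu1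
    obtain ⟨g, hg, hgu⟩ := mem_aff.1 hu0
    obtain ⟨h, hh, hhu⟩ := mem_aff.1 hu1
    have hu2 : ∀ j : Fin k, ∃ γ ∈ pts V₂, β j + P * γ = u j.succ.succ := by
      intro j
      obtain ⟨w, hw⟩ := hu j.succ.succ
      rw [hW2] at hw
      exact hpa _ _ _ _ (mem_pts.2 ⟨w, hw⟩)
    choose γ hγ hγu using hu2
    have hp := hmI g (mem_pts.2 ⟨_, hg⟩) h (mem_pts.2 ⟨_, hh⟩)
    obtain ⟨t, ht, hB⟩ := h1 (g, h) hp γ hγ
    have e0 : u 0 = x (g, h) := by
      rw [hx, ← hgu]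
      ring
    have e1 : u 1 - u 0 = a (g, h) := by
      rw [ha, ← hgu, ← hhu]
      ring
    have e2 := hapos _ hp
    refine ⟨by omega, t, fun j => ?_, ?_⟩
    · rw [e1, e0, ← hγu, ht j]
    · refine hanti _ _ t ?_ hB
      rw [e1]
      exact mul_le_mul_of_nonneg_left (hale _ hp).2 (by omega)
  · -- separation
    have s01 : ∀ y ∈ pts (W 0), ∀ z ∈ pts (W 1), y < z := by
      intro y hy z hz
      rw [hW0] at hy
      rw [hW1] at hz
      obtain ⟨g, hg, rfl⟩ := hpa _ _ _ _ hy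
      obtain ⟨h, hh, rfl⟩ := hpa _ _ _ _ hz
      have e := hapos _ (hmI g hg h hh)
      rw [ha] at e
      simp only at e
      linarith
    have s02 : ∀ j : Fin k, (∀ y ∈ pts (W 0), ∀ z ∈ pts (W j.succ.succ), y < z) ∨
        ∀ y ∈ pts (W 0), ∀ z ∈ pts (W j.succ.succ), z < y := by
      intro j
      obtain ⟨h, hh⟩ := hne₁
      rcases h2 j with e | e
      · left
        intro y hy z hz
        rw [hW0] at hy
        rw [hW2] at hz
        obtain ⟨g, hg, rfl⟩ := hpa _ _ _ _ hy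
        obtain ⟨γ, hγ, rfl⟩ := hpa _ _ _ _ hz
        have e1 := e _ (hmI g hg h hh) γ hγ
        have e2 := hapos _ (hmI g hg h hh)
        rw [hx] at e1
        simp only at e1
        linarith
      · right
        intro y hy z hz
        rw [hW0] at hy
        rw [hW2] at hz
        obtain ⟨g, hg, rfl⟩ := hpa _ _ _ _ hy
        obtain ⟨γ, hγ, rfl⟩ := hpa _ _ _ _ hz
        have e1 := e _ (hmI g hg h hh) γ hγ
        rw [hx] at e1
        simp only at e1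
        linarith
    have s12 : ∀ j : Fin k, (∀ y ∈ pts (W 1), ∀ z ∈ pts (W j.succ.succ), y < z) ∨
        ∀ y ∈ pts (W 1), ∀ z ∈ pts (W j.succ.succ), z < y := by
      intro j
      obtain ⟨g, hg⟩ := hne₀
      rcases h2 j with e | e
      · left
        intro y hy z hz
        rw [hW1] at hy
        rw [hW2] at hz
        obtain ⟨h, hh, rfl⟩ := hpa _ _ _ _ hy
        obtain ⟨γ, hγ, rfl⟩ := hpa _ _ _ _ hz
        have e1 := e _ (hmI g hg h hh) γ hγ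
        rw [hx, ha] at e1
        simp only at e1
        linarith
      · right
        intro y hy z hz
        rw [hW1] at hy
        rw [hW2] at hz
        obtain ⟨h, hh, rfl⟩ := hpa _ _ _ _ hy
        obtain ⟨γ, hγ, rfl⟩ := hpa _ _ _ _ hz
        have e1 := e _ (hmI g hg h hh) γ hγ
        have e2 := hapos _ (hmI g hg h hh)
        rw [hx] at e1
        rw [ha] at e2
        simp only at e1 e2
        linarith
    have s22 : ∀ j j' : Fin k, j ≠ j' →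
        (∀ y ∈ pts (W j.succ.succ), ∀ z ∈ pts (W j'.succ.succ), y < z) ∨
        ∀ y ∈ pts (W j.succ.succ), ∀ z ∈ pts (W j'.succ.succ), z < y := by
      intro j j' hjj
      rcases h3 j j' hjj with e | e
      · left
        intro y hy z hz
        rw [hW2] at hy hz
        obtain ⟨g, hg, rfl⟩ := hpa _ _ _ _ hy
        obtain ⟨h, hh, rfl⟩ := hpa _ _ _ _ hz
        exact e g hg h hh
      · right
        intro y hy z hz
        rw [hW2] at hy hz
        obtain ⟨g, hg, rfl⟩ := hpa _ _ _ _ hy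
        obtain ⟨h, hh, rfl⟩ := hpa _ _ _ _ hz
        exact e g hg h hh
    have swap : ∀ i j, ((∀ y ∈ pts (W i), ∀ z ∈ pts (W j), y < z) ∨ ∀ y ∈ pts (W i), ∀ z ∈ pts (W j), z < y) →
        ((∀ y ∈ pts (W j), ∀ z ∈ pts (W i), y < z) ∨ ∀ y ∈ pts (W j), ∀ z ∈ pts (W i), z < y) := by
      rintro i j (h | h)
      · right
        intro y hy z hz
        exact h z hz y hy
      · left
        intro y hy z hz
        exact h z hz y hy
    have c0 : ∀ i : Fin (k + 2), i = 0 ∨ i = 1 ∨ ∃ j : Fin k, i = j.succ.succ := by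
      refine Fin.cases (Or.inl rfl) (Fin.cases (Or.inr (Or.inl rfl)) fun j => Or.inr (Or.inr ⟨j, rfl⟩))
    intro i j hij
    rcases c0 i with rfl | rfl | ⟨i, rfl⟩ <;> rcases c0 j with rfl | rfl | ⟨j, rfl⟩
    · exact absurd rfl hij
    · exact Or.inl s01
    · exact s02 j
    · exact swap 0 1 (Or.inl s01)
    · exact absurd rfl hij
    · exact s12 j
    · exact swap _ _ (s02 i)
    · exact swap _ _ (s12 i)
    · exact s22 i j fun h => hij (by rw [h])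

theorem bld_all {k : ℕ} (Q : ℕ) (hQ : 0 < Q) (ε : ℝ) (hε : 0 < ε) (hε1 : ε < 1) (B : ℤ → (Fin k → ℤ) → Prop)
    (hanti : ∀ M M' t, M ≤ M' → B M' t → B M t) (hL : Lrg ε Q B) (s d : ℕ) (hs : 1 ≤ s) : Bld B s d := by
  induction d with
  | zero =>
    intro F _
    refine ⟨fun _ => (Finset.range s).image fun n : ℕ => (n : ℤ), fun w => ?_, trivial, trivial⟩
    rw [card_image_of_injective _ Nat.cast_injective, card_range]
  | succ d ih => exact step Q hQ ε hε hε1 B hanti hL s d hs ih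

end Pool.Agent.H34.IR
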