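import Pool.Agent.H34.IR.Def

/-!
# [H34 IR TREE] IntegerRatios (MP_8923e7_nt): the tree pigeonhole

`full_of_card`: induction on `d`; if child `i₀` of the root is not hit, then `R` is the disjoint union of the fibres
`R_i = {w | cons i w ∈ R}`, `i ≠ i₀` (`κ` of them), so one of them has more than `κ ^ d` elements.
`node_of_full`: induction on `d`. Root: all children are hit; `x` = the LARGEST element of `S` in the blocks below child `0`,
`y` = the SMALLEST element of `S` in the blocks below child `1`, the other `u i` arbitrary elements of `S` below child `i`;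
`P u` by `Nodes`. If `g ∈ V w`, `u 0 < g < u 1`, `g ∈ S`: `w 0 = 0` contradicts maximality, `w 0 = 1` minimality, and for
`w 0 = i ≥ 2` replace `u i` by `g` (`Function.update`): `P` holds and contradicts `hP`. Inner node in child `i`: by induction
no `g` below child `i`; for `g` below child `j ≠ i` the first part of `Sep` is contradicted by `u 0 < g < u 1`.
-/

namespace Pool.Agent.H34.IR

open Finset

theorem full_of_card {κ : ℕ} (d : ℕ) (R : Finset (Fin d → Fin (κ + 1))) (h : κ ^ d < R.card) :
    Full d (R : Set (Fin d → Fin (κ + 1))) := by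
  classical
  induction d with
  | zero =>
    have h1 : R.card ≤ 1 := Finset.card_le_one_of_subsingleton R
    rw [pow_zero] at h
    omega
  | succ d ih =>
    by_contra hcon
    have hcon' : ¬ ((∀ i, ∃ w : Fin d → Fin (κ + 1),
        (Fin.cons i w : Fin (d + 1) → Fin (κ + 1)) ∈ (R : Set (Fin (d + 1) → Fin (κ + 1)))) ∨
      ∃ i, Full d {w | (Fin.cons i w : Fin (d + 1) → Fin (κ + 1)) ∈
        (R : Set (Fin (d + 1) → Fin (κ + 1)))}) := hcon
    rw [not_or] at hcon'
    obtain ⟨h1, h2⟩ := hcon'
    push Not at h1 h2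
    obtain ⟨i₀, h1⟩ := h1
    have h3 : ∀ f ∈ R, f 0 ∈ (Finset.univ : Finset (Fin (κ + 1))).erase i₀ := by
      intro f hf
      rw [Finset.mem_erase]
      refine ⟨fun h4 => ?_, Finset.mem_univ _⟩
      refine h1 (Fin.tail f) ?_
      rw [← h4, Fin.cons_self_tail]
      exact hf
    have h4 : ∀ i, (R.filter fun f => f 0 = i).card ≤ κ ^ d := by
      intro i
      by_contra h5
      refine h2 i ?_
      have h6 : (R.filter fun f => f 0 = i).card ≤
          (Finset.univ.filter fun w : Fin d → Fin (κ + 1) =>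
            (Fin.cons i w : Fin (d + 1) → Fin (κ + 1)) ∈ R).card := by
        refine Finset.card_le_card_of_injOn Fin.tail ?_ ?_
        · intro f hf
          obtain ⟨hf1, hf2⟩ := Finset.mem_filter.1 hf
          refine Finset.mem_coe.2 (Finset.mem_filter.2 ⟨Finset.mem_univ _, ?_⟩)
          rw [← hf2, Fin.cons_self_tail]
          exact hf1
        · intro f hf g hg hfg
          obtain ⟨-, hf2⟩ := Finset.mem_filter.1 hf
          obtain ⟨-, hg2⟩ := Finset.mem_filter.1 hg
          rw [← Fin.cons_self_tail f, ← Fin.cons_self_tail g, hfg, hf2, hg2]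
      have h7 := ih (Finset.univ.filter fun w : Fin d → Fin (κ + 1) =>
        (Fin.cons i w : Fin (d + 1) → Fin (κ + 1)) ∈ R) (by omega)
      have h8 : ((Finset.univ.filter fun w : Fin d → Fin (κ + 1) =>
          (Fin.cons i w : Fin (d + 1) → Fin (κ + 1)) ∈ R : Finset (Fin d → Fin (κ + 1))) :
          Set (Fin d → Fin (κ + 1))) = {w | (Fin.cons i w : Fin (d + 1) → Fin (κ + 1)) ∈
        (R : Set (Fin (d + 1) → Fin (κ + 1)))} := by
        ext w
        simp
      rw [h8] at h7
      exact h7
    have h5 : R.card ≤ κ ^ (d + 1) := by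
      calc R.card = ∑ i ∈ (Finset.univ : Finset (Fin (κ + 1))).erase i₀,
            (R.filter fun f => f 0 = i).card := Finset.card_eq_sum_card_fiberwise h3
        _ ≤ ∑ _i ∈ (Finset.univ : Finset (Fin (κ + 1))).erase i₀, κ ^ d :=
            Finset.sum_le_sum fun i _ => h4 i
        _ = κ ^ (d + 1) := by
            rw [Finset.sum_const, Finset.card_erase_of_mem (Finset.mem_univ _),
              Finset.card_univ, Fintype.card_fin, Nat.add_sub_cancel, smul_eq_mul, pow_succ,
              mul_comm]
    omega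

theorem node_of_full {k : ℕ} (P : (Fin (k + 2) → ℤ) → Prop)
    (hP : ∀ u, P u → ∀ i, ¬ (u 0 < u i ∧ u i < u 1)) (hP' : ∀ u, P u → u 0 < u 1)
    (d : ℕ) (V : (Fin d → Fin (k + 2)) → Finset ℤ) (hN : Nodes P d V) (hS : Sep d V) (S : Set ℤ)
    (hF : Full d {w | ∃ y ∈ V w, y ∈ S}) :
    ∃ u : Fin (k + 2) → ℤ, (∀ i, u i ∈ S ∧ ∃ w, u i ∈ V w) ∧ P u ∧
      ∀ w, ∀ g ∈ V w, u 0 < g → g < u 1 → g ∉ S := by
  classical
  induction d with
  | zero => exact hF.elim
  | succ d ih =>
    obtain ⟨hN1, hN2⟩ := hN
    obtain ⟨hS1, hS2⟩ := hS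
    rcases hF with hF | ⟨i, hF⟩
    · obtain ⟨A, hA⟩ : ∃ A : Fin (k + 2) → Finset ℤ, A = fun i =>
          (Finset.univ.biUnion fun w : Fin d → Fin (k + 2) => V (Fin.cons i w)).filter
            fun y => y ∈ S := ⟨_, rfl⟩
      have hmem : ∀ i y, y ∈ A i ↔ (∃ w : Fin d → Fin (k + 2), y ∈ V (Fin.cons i w)) ∧ y ∈ S := by
        intro i y
        rw [hA]
        simp
      have hne : ∀ i, (A i).Nonempty := by
        intro i
        obtain ⟨w, y, hy1, hy2⟩ := hF i
        exact ⟨y, (hmem i y).2 ⟨⟨w, hy1⟩, hy2⟩⟩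
      obtain ⟨u, hu⟩ : ∃ u : Fin (k + 2) → ℤ, u = fun i =>
          if i = 0 then (A i).max' (hne i) else (A i).min' (hne i) := ⟨_, rfl⟩
      have huA : ∀ i, u i ∈ A i := by
        intro i
        rw [hu]
        beta_reduce
        split_ifs
        · exact Finset.max'_mem _ _
        · exact Finset.min'_mem _ _
      have hu0 : ∀ y ∈ A 0, y ≤ u 0 := by
        intro y hy
        rw [hu]
        beta_reduce
        rw [if_pos rfl]
        exact Finset.le_max' _ _ hy
      have hu1 : ∀ y ∈ A 1, u 1 ≤ y := by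
        intro y hy
        rw [hu]
        beta_reduce
        rw [if_neg]
        · exact Finset.min'_le _ _ hy
        · exact Fin.succ_ne_zero (0 : Fin (k + 1))
      refine ⟨u, fun i => ?_, hN1 u fun i => ((hmem i _).1 (huA i)).1, fun w g hg h0 h1 hgS => ?_⟩
      · obtain ⟨⟨w, hw⟩, h2⟩ := (hmem i _).1 (huA i)
        exact ⟨h2, _, hw⟩
      · have hgA : g ∈ A (w 0) := (hmem _ _).2 ⟨⟨Fin.tail w, by
          rw [Fin.cons_self_tail]
          exact hg⟩, hgS⟩
        by_cases hw0 : w 0 = 0
        · rw [hw0] at hgA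
          have := hu0 g hgA
          omega
        by_cases hw1 : w 0 = 1
        · rw [hw1] at hgA
          have := hu1 g hgA
          omega
        have h2 : P (Function.update u (w 0) g) := by
          refine hN1 _ fun i => ?_
          by_cases hi : i = w 0
          · rw [hi, Function.update_self]
            exact ((hmem _ _).1 hgA).1
          · rw [Function.update_of_ne hi]
            exact ((hmem i _).1 (huA i)).1
        refine hP _ h2 (w 0) ?_
        rw [Function.update_self, Function.update_of_ne (Ne.symm hw0),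
          Function.update_of_ne (Ne.symm hw1)]
        exact ⟨h0, h1⟩
    · obtain ⟨u, hu1, hu2, hu3⟩ := ih (fun w => V (Fin.cons i w)) (hN2 i) (hS2 i) hF
      refine ⟨u, fun j => ?_, hu2, fun w g hg h0 h1 => ?_⟩
      · obtain ⟨h2, w, hw⟩ := hu1 j
        exact ⟨h2, _, hw⟩
      · by_cases hi : w 0 = i
        · refine hu3 (Fin.tail w) g ?_ h0 h1
          rw [← hi, Fin.cons_self_tail]
          exact hg
        · exfalso
          have hg' : g ∈ V (Fin.cons (w 0) (Fin.tail w)) := by
            rw [Fin.cons_self_tail]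
            exact hg
          obtain ⟨-, w0, hw0⟩ := hu1 0
          obtain ⟨-, w1, hw1⟩ := hu1 1
          rcases hS1 i (w 0) (Ne.symm hi) with h2 | h2
          · have := h2 w1 (Fin.tail w) (u 1) hw1 g hg'
            omega
          · have := h2 w0 (Fin.tail w) (u 0) hw0 g hg'
            omega

/-- blocks of different leaves are disjoint -/
theorem disj_of_sep {κ : ℕ} (d : ℕ) (V : (Fin d → Fin κ) → Finset ℤ) (hS : Sep d V) (v w : Fin d → Fin κ)
    (hvw : v ≠ w) : Disjoint (V v) (V w) := by
  induction d with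
  | zero => exact absurd (Subsingleton.elim v w) hvw
  | succ d ih =>
    obtain ⟨hS1, hS2⟩ := hS
    rw [← Fin.cons_self_tail v, ← Fin.cons_self_tail w] at hvw ⊢
    rw [Finset.disjoint_left]
    by_cases h : v 0 = w 0
    · rw [h] at hvw ⊢
      rw [← Finset.disjoint_left]
      refine ih (fun u => V (Fin.cons (w 0) u)) (hS2 (w 0)) (Fin.tail v) (Fin.tail w) ?_
      intro h1
      exact hvw (by rw [h1])
    · intro x hx hy
      rcases hS1 _ _ h with h2 | h2
      · exact lt_irrefl x (h2 _ _ x hx x hy)
      · exact lt_irrefl x (h2 _ _ x hx x hy)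

end Pool.Agent.H34.IR
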